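import Mathlib.Combinatorics.SimpleGraph.Basic
import Mathlib.Data.Set.Card
import Mathlib.Algebra.BigOperators.Intervals

/-! Statements of the three auxiliary steps for the dense case. -/

set_option autoImplicit false

namespace Pool.Agent.MP_f65396_co.h15

open Finset

/-- The natural out-neighbours: allowed targets that are lower or may not take the edge. -/
def nat (al : ℕ → Finset ℕ) (x : ℕ) : Finset ℕ := (al x).filter fun y => y < x ∨ x ∉ al y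

/-- Orientation with prescribed out-degrees. -/
def OrientS : Prop := ∀ (N m B E K σ R : ℕ) (al : ℕ → Finset ℕ) (a w : ℕ → ℕ),
  (∀ x < N, ∀ y ∈ al x, y < N ∧ y ≠ x) →
  (∀ x < N, ((range N).filter (fun y => ¬ (y ∈ al x ∧ x ∈ al y))).card ≤ K) →
  (∑ x ∈ range N, a x ≤ ∑ x ∈ range N, (nat al x).card) →
  (∀ x < m, (nat al x).card ≤ a x) →
  (∀ x, B ≤ x → x < m → (nat al x).card + E ≤ a x) →
  (∀ x, N - m ≤ x → x < N → a x ≤ (nat al x).card) →
  (∀ x, m ≤ x → x < N → (nat al x).card ≤ a x + w x ∧ w x ≤ σ) →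
  (∑ x ∈ Ico m (N - m), w x ≤ R) →
  (∀ x < N, a x ≤ x) →
  2 * m ≤ N →
  R + 2 * K * σ + E * (B + K + σ) ≤ E * m →
  ∃ A : ℕ → Finset ℕ, (∀ x < N, A x ⊆ al x ∧ (A x).card = a x) ∧
    ∀ x < N, ∀ y < N, y ∈ A x → x ∉ A y

/-- Choice of the order of the vertices. -/
def SelS : Prop := ∀ (V : Type) [DecidableEq V] (U : Finset V) (h : V → V → Prop)
    [DecidableRel h] (N n c D m : ℕ),
  (∀ u v, h u v → h v u) → (∀ u, ¬ h u u) → U.card = N → N = n + c → 2 ≤ c → c ≤ D →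
  10000 * D ≤ n → 4 * D ≤ m → 2 * m ≤ N →
  (∀ u ∈ U, (U.filter (h u)).card ≤ D) →
  ∑ u ∈ U, (U.filter (h u)).card + n * (n + 1) = N * (N - 1) →
  ∃ v : ℕ → V, Set.BijOn v (range N : Finset ℕ) U ∧ (∀ j < c, h (v j) (v (N - m + j))) ∧
    ∀ j, m - 3 * D ≤ j → j < m →
      ((range (N - m + j)).filter (fun x => h (v x) (v (N - m + j)) ∧
        ((m - 3 * D ≤ x ∧ x < m) ∨ N - 3 * D ≤ x ∨ h (v x) (v j)))).card + 2 ≤ c

/-- The conclusion: an ascending decomposition into star forests covered by two vertices. -/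
def Dec {V : Type} (G : SimpleGraph V) (n : ℕ) : Prop :=
  ∃ H : Fin n → SimpleGraph V,
    (⨆ i, H i) = G ∧
    Pairwise (fun i j => Disjoint (H i).edgeSet (H j).edgeSet) ∧
    (∀ i : Fin n, (H i).edgeSet.ncard = i.val + 1) ∧
    (∀ i j : Fin n, j.val = i.val + 1 →
      ∃ f : V → V, Function.Injective f ∧
        ∀ u v : V, (H i).Adj u v → (H j).Adj (f u) (f v)) ∧
    (∀ (i : Fin n) (u v : V), (H i).Adj u v →
      (∀ w : V, (H i).Adj u w → w = v) ∨ ∀ w : V, (H i).Adj v w → w = u) ∧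
    ∀ i : Fin n, ∃ a b : V, ∀ u v : V, (H i).Adj u v → u = a ∨ u = b ∨ v = a ∨ v = b

/-- From two stars per colour to the decomposition. -/
def AsmS : Prop := ∀ (V : Type) [Fintype V] (G : SimpleGraph V) (n : ℕ) (x z : ℕ → V)
    (A L : ℕ → Finset V),
  G.edgeSet.ncard = n * (n + 1) / 2 →
  (∀ t < n, ∀ v ∈ A t, G.Adj (x t) v) →
  (∀ t < n, ∀ v ∈ L t, G.Adj (z t) v ∧ z t ≠ x t ∧ z t ∉ A t ∧ v ≠ x t ∧ v ∉ A t) →
  (∀ t < n, (A t).card + (L t).card = t + 1) →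
  (∀ t, t + 1 < n → (A t).card ≤ (A (t + 1)).card ∧ (L t).card ≤ (L (t + 1)).card) →
  (∀ s < n, ∀ t < n, ∀ u ∈ A s, ∀ v ∈ A t, s(x s, u) = s(x t, v) → s = t) →
  (∀ s < n, ∀ t < n, ∀ u ∈ A s, ∀ v ∈ L t, s(x s, u) ≠ s(z t, v)) →
  (∀ s < n, ∀ t < n, ∀ u ∈ L s, ∀ v ∈ L t, s(z s, u) = s(z t, v) → s = t) →
  Dec G n

end Pool.Agent.MP_f65396_co.h15
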