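import Mathlib.Data.Fintype.EquivFin
import Mathlib.Logic.Equiv.Fintype
import Mathlib.Combinatorics.SimpleGraph.Finite
import Pool.Agent.MP_f65396_co.h15.Spec

/-! From two stars per colour to the decomposition. -/

set_option autoImplicit false

namespace Pool.Agent.MP_f65396_co.h15

open Finset

namespace Asm

lemma inj {V : Type} (v : V) {S T : Finset V} (h : S.card ≤ T.card) :
    ∃ f : V → V, (∀ w ∈ S, f w ∈ T) ∧ Set.InjOn f S := by
  have : Nonempty V := ⟨v⟩
  obtain ⟨f, h1, h2⟩ := S.finite_toSet.exists_injOn_of_encard_le (t := (T : Set V)) (by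
    rw [Set.encard_coe_eq_coe_finsetCard, Set.encard_coe_eq_coe_finsetCard]
    exact_mod_cast h)
  exact ⟨f, fun w hw => h1 hw, h2⟩

/-- leaves `W t` with centres `c t` -/
lemma core {V : Type} [Fintype V] (G : SimpleGraph V) (n : ℕ) (W : ℕ → Finset V) (c : ℕ → V → V)
    (hG : G.edgeSet.ncard = n * (n + 1) / 2) (E0 : ∀ t < n, (W t).card = t + 1)
    (E1 : ∀ t < n, ∀ w ∈ W t, G.Adj (c t w) w)
    (E2 : ∀ t < n, ∀ w ∈ W t, ∀ w' ∈ W t, w ≠ c t w')
    (E3 : ∀ s < n, ∀ t < n, ∀ w ∈ W s, ∀ w' ∈ W t, s(c s w, w) = s(c t w', w') → s = t)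
    (E4 : ∀ t, ∃ a b, ∀ w, c t w = a ∨ c t w = b)
    (E5 : ∀ t, t + 1 < n → ∃ f : V → V, Set.InjOn f (W t) ∧ ∀ w ∈ W t, f w ∈ W (t + 1) ∧
      f (c t w) = c (t + 1) (f w) ∧ ∀ w' ∈ W t, c (t + 1) (f w) = c (t + 1) (f w') →
        c t w = c t w') : Dec G n := by
  classical
  let K : Fin n → SimpleGraph V := fun t =>
    { Adj := fun u v => ∃ w ∈ W t, s(c t w, w) = s(u, v)
      symm := ⟨fun u v ⟨w, hw, h⟩ => ⟨w, hw, h.trans Sym2.eq_swap⟩⟩
      loopless := ⟨fun u ⟨w, hw, h⟩ => (E1 t t.2 w hw).ne (by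
        rcases Sym2.eq_iff.1 h with h | h <;> exact h.1.trans h.2.symm)⟩ }
  let F : ℕ → Finset (Sym2 V) := fun t => (W t).image fun w => s(c t w, w)
  have Ke : ∀ t : Fin n, (K t).edgeSet = F t := fun t => by
    ext e
    induction e using Sym2.ind with
    | h u v => exact (mem_image.trans Iff.rfl).symm
  have Fc : ∀ t < n, (F t).card = t + 1 := fun t ht => by
    rw [card_image_of_injOn fun w hw w' hw' e => ?_, E0 t ht]
    rcases Sym2.eq_iff.1 e with h | h
    · exact h.2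
    · exact absurd h.2 (E2 t ht w hw w' hw')
  have Fd : ∀ s < n, ∀ t < n, s ≠ t → Disjoint (F s) (F t) := fun s hs t ht hst =>
    disjoint_left.2 fun e h h' => by
      obtain ⟨w, hw, rfl⟩ := mem_image.1 h
      obtain ⟨w', hw', e'⟩ := mem_image.1 h'
      exact hst (E3 s hs t ht w hw w' hw' e'.symm)
  have cov : (((range n).biUnion F : Finset (Sym2 V)) : Set (Sym2 V)) = G.edgeSet := by
    refine Set.eq_of_subset_of_ncard_le (fun e he => ?_) ?_ (Set.toFinite _)
    · obtain ⟨t, ht, he⟩ := mem_biUnion.1 he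
      obtain ⟨w, hw, rfl⟩ := mem_image.1 he
      exact E1 t (mem_range.1 ht) w hw
    · rw [hG, Set.ncard_coe_finset, card_biUnion fun s hs t ht =>
        Fd s (mem_range.1 hs) t (mem_range.1 ht), sum_congr rfl fun t ht => Fc t (mem_range.1 ht)]
      have h1 := sum_range_id_mul_two (n + 1)
      rw [sum_range_succ', Nat.add_sub_cancel, mul_comm (n + 1) n] at h1
      omega
  have leaf : ∀ t : Fin n, ∀ w ∈ W t, ∀ y, (K t).Adj w y → y = c t w := by
    rintro t w hw y ⟨w', hw', h⟩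
    rcases Sym2.eq_iff.1 h with h | h
    · exact absurd h.1.symm (E2 t t.2 w hw w' hw')
    · rw [← h.1, h.2]
  refine ⟨K, ?_, fun i j hij => ?_, fun i => ?_, fun i j hij => ?_, fun i u v h => ?_,
    fun i => ?_⟩
  · ext u v
    rw [SimpleGraph.iSup_adj, ← G.mem_edgeSet, ← cov, mem_coe, mem_biUnion]
    exact ⟨fun ⟨i, h⟩ => ⟨i, mem_range.2 i.2, mem_image.2 h⟩,
      fun ⟨t, ht, h⟩ => ⟨⟨t, mem_range.1 ht⟩, mem_image.1 h⟩⟩
  · simp only [Ke, disjoint_coe]
    exact Fd i i.2 j j.2 fun e => hij (Fin.ext e)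
  · rw [Ke, Set.ncard_coe_finset, Fc i i.2]
  · have hj : (i : ℕ) + 1 < n := hij ▸ j.2
    obtain ⟨f, f1, f2⟩ := E5 i hj
    have hi : Set.InjOn f (W i ∪ (W i).image (c i) : Finset V) := by
      intro u hu v hv e
      rcases mem_union.1 hu with hu | hu <;> rcases mem_union.1 hv with hv | hv
      · exact f1 hu hv e
      · obtain ⟨w, hw, rfl⟩ := mem_image.1 hv
        exact absurd (e.trans (f2 w hw).2.1) (E2 _ hj _ (f2 u hu).1 _ (f2 w hw).1)
      · obtain ⟨w, hw, rfl⟩ := mem_image.1 hu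
        exact absurd (e.symm.trans (f2 w hw).2.1) (E2 _ hj _ (f2 v hv).1 _ (f2 w hw).1)
      · obtain ⟨w, hw, rfl⟩ := mem_image.1 hu
        obtain ⟨w', hw', rfl⟩ := mem_image.1 hv
        exact (f2 w hw).2.2 w' hw' ((f2 w hw).2.1.symm.trans (e.trans (f2 w' hw').2.1))
    obtain ⟨g, hg⟩ := Finset.exists_equiv_extend_of_card_eq (t := (univ : Finset V))
      card_univ.symm (subset_univ _) hi
    refine ⟨fun v => g v, fun u v e => g.injective (Subtype.ext e), ?_⟩
    rintro u v ⟨w, hw, h⟩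
    have a1 : (g (c i w) : V) = c (i + 1) (f w) :=
      (hg _ (mem_union_right _ (mem_image_of_mem _ hw))).trans (f2 w hw).2.1
    have a2 : (g w : V) = f w := hg _ (mem_union_left _ hw)
    refine ⟨f w, hij ▸ (f2 w hw).1, ?_⟩
    rw [hij, ← a1, ← a2]
    exact congrArg (Sym2.map fun v => (g v : V)) h
  · obtain ⟨w, hw, h⟩ := h
    rcases Sym2.eq_iff.1 h with ⟨rfl, rfl⟩ | ⟨rfl, rfl⟩
    · exact Or.inr (leaf i w hw)
    · exact Or.inl (leaf i w hw)
  · obtain ⟨a, b, h⟩ := E4 i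
    refine ⟨a, b, ?_⟩
    rintro u v ⟨w, -, e⟩
    rcases Sym2.eq_iff.1 e with ⟨rfl, rfl⟩ | ⟨rfl, rfl⟩ <;> rcases h w with h | h <;> simp [h]

end Asm

theorem asm : AsmS := by
  classical
  intro V _ G n x z A L hG hA hL hc hm hAA hAL hLL
  have cA : ∀ t, ∀ w ∈ A t, (if w ∈ A t then x t else z t) = x t := fun t w h => if_pos h
  have cL : ∀ t < n, ∀ w ∈ L t, (if w ∈ A t then x t else z t) = z t := fun t ht w h =>
    if_neg (hL t ht w h).2.2.2.2
  refine Asm.core G n (fun t => A t ∪ L t) (fun t w => if w ∈ A t then x t else z t) hG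
    (fun t ht => ?_) (fun t ht w hw => ?_) (fun t ht w hw w' hw' => ?_)
    (fun s hs t ht w hw w' hw' e => ?_) (fun t => ⟨x t, z t, fun w => ?_⟩) fun t ht => ?_
  · rw [card_union_of_disjoint (disjoint_right.2 fun v hv => (hL t ht v hv).2.2.2.2), hc t ht]
  · rcases mem_union.1 hw with h | h
    · exact (cA t w h).symm ▸ hA t ht w h
    · exact (cL t ht w h).symm ▸ (hL t ht w h).1
  · rcases mem_union.1 hw' with h' | h' <;> rcases mem_union.1 hw with h | h
    · exact (cA t w' h').symm ▸ (hA t ht w h).ne'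
    · exact (cA t w' h').symm ▸ (hL t ht w h).2.2.2.1
    · exact (cL t ht w' h').symm ▸ fun e => (hL t ht w' h').2.2.1 (e ▸ h)
    · exact (cL t ht w' h').symm ▸ (hL t ht w h).1.ne'
  · rcases mem_union.1 hw with h | h <;> rcases mem_union.1 hw' with h' | h'
    · exact hAA s hs t ht w h w' h' (by rwa [cA s w h, cA t w' h'] at e)
    · exact absurd (by rwa [cA s w h, cL t ht w' h'] at e) (hAL s hs t ht w h w' h')
    · exact absurd (by rw [cL s hs w h, cA t w' h'] at e; exact e.symm) (hAL t ht s hs w' h' w h)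
    · exact hLL s hs t ht w h w' h' (by rwa [cL s hs w h, cL t ht w' h'] at e)
  · split_ifs <;> simp
  · have ht' : t < n := by omega
    obtain ⟨φ, p1, p2⟩ := Asm.inj (x t) (hm t ht).1
    obtain ⟨ψ, q1, q2⟩ := Asm.inj (x t) (hm t ht).2
    set f : V → V := fun v =>
      if v ∈ A t then φ v else if v ∈ L t then ψ v else if v = x t then x (t + 1) else z (t + 1)
      with hf
    have fA : ∀ w ∈ A t, f w = φ w := fun w h => if_pos h
    have fL : ∀ w ∈ L t, f w = ψ w := fun w h => (if_neg (hL t ht' w h).2.2.2.2).trans (if_pos h)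
    have dis : ∀ w ∈ A t, ∀ w' ∈ L t, φ w ≠ ψ w' := fun w h w' h' e =>
      (hL _ ht _ (q1 w' h')).2.2.2.2 (e ▸ p1 w h)
    refine ⟨f, fun u hu v hv e => ?_, fun w hw => ?_⟩
    · rcases mem_union.1 hu with h | h <;> rcases mem_union.1 hv with h' | h'
      · exact p2 h h' (by rwa [fA u h, fA v h'] at e)
      · exact absurd (by rwa [fA u h, fL v h'] at e) (dis u h v h')
      · exact absurd (by rw [fL u h, fA v h'] at e; exact e.symm) (dis v h' u h)
      · exact q2 h h' (by rwa [fL u h, fL v h'] at e)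
    · rcases mem_union.1 hw with h | h
      · rw [cA t w h, fA w h, cA _ _ (p1 w h)]
        refine ⟨mem_union_left _ (p1 w h), ?_, fun w' hw' e => ?_⟩
        · exact (if_neg fun e => (hA t ht' _ e).ne rfl).trans
            ((if_neg fun e => (hL t ht' _ e).2.2.2.1 rfl).trans (if_pos rfl))
        · rcases mem_union.1 hw' with h' | h'
          · exact (cA t w' h').symm
          · rw [fL w' h', cL _ ht _ (q1 w' h')] at e
            exact absurd e.symm (hL _ ht _ (q1 w' h')).2.1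
      · rw [cL t ht' w h, fL w h, cL _ ht _ (q1 w h)]
        refine ⟨mem_union_right _ (q1 w h), ?_, fun w' hw' e => ?_⟩
        · exact (if_neg (hL t ht' w h).2.2.1).trans
            ((if_neg fun e => (hL t ht' _ e).1.ne rfl).trans (if_neg (hL t ht' w h).2.1))
        · rcases mem_union.1 hw' with h' | h'
          · rw [fA w' h', cA _ _ (p1 w' h')] at e
            exact absurd e (hL _ ht _ (q1 w h)).2.1
          · exact (cL t ht' w' h').symm

end Pool.Agent.MP_f65396_co.h15
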