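import Pool.Agent.MP_f65396_co.h15.Spec
import Mathlib.Order.Interval.Finset.Nat

/-! The second stars: centres, leaves and their basic properties. -/

set_option autoImplicit false

namespace Pool.Agent.MP_f65396_co.h15

open Finset

/-- The centre of the second star of the colour whose first star has centre `p`. -/
def zc (N m β p : ℕ) : ℕ := if p + m < N then m + (p - (N - m - β)) else p - (N - m)

/-- The hypotheses on the ordered complement graph. -/
structure H0 (N n c D B m : ℕ) (h : ℕ → ℕ → Prop) [DecidableRel h] : Prop where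
  hs : ∀ u v, h u v → h v u
  hi : ∀ u, ¬ h u u
  hN : N = n + c
  hc : 2 ≤ c
  hcD : c ≤ D
  hB : 20 * D ≤ B
  hm : m = 150 * B
  hn : 500 * B ≤ n
  hn' : n < 500 * B + 500
  hD : ∀ x < N, ((range N).filter (h x)).card ≤ D
  hsum : ∑ x ∈ range N, ((range N).filter (h x)).card + n * (n + 1) = N * (N - 1)
  bot : ∀ j < c, h j (N - m + j)
  top : ∀ j, m - 3 * D ≤ j → j < m →
    ((range (N - m + j)).filter (fun x => h x (N - m + j) ∧
      ((m - 3 * D ≤ x ∧ x < m) ∨ N - 3 * D ≤ x ∨ h x j))).card + 2 ≤ c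

/-- The prescribed leaves. -/
def Pre (N D B m : ℕ) (h : ℕ → ℕ → Prop) (j v : ℕ) : Prop :=
  (v < j ∧ j ≤ v + B ∧ ¬ h v j) ∨
  (N - m + j < v ∧ v ≤ N - m + j + B ∧ v < N ∧ ¬ h j (v - (N - m)) ∧ ¬ h j v) ∨
  (m - 3 * D ≤ j ∧ v < N - 3 * D ∧ ¬ (m - 3 * D ≤ v ∧ v < m) ∧ h v (N - m + j) ∧ ¬ h v j)

/-- The padding leaves. -/
def Pad (N D B m : ℕ) (h : ℕ → ℕ → Prop) (p v : ℕ) : Prop :=
  m + (2 * B + D) + (p - (N - m - (2 * B + D))) ≤ v ∧
  v < m + (2 * B + D) + (p - (N - m - (2 * B + D))) + (2 * B + 2 * D) ∧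
  ¬ h v (zc N m (2 * B + D) p)

/-- The properties of the leaf sets. -/
structure HL (N D B m : ℕ) (h : ℕ → ℕ → Prop) (L : ℕ → Finset ℕ) : Prop where
  card : ∀ p < N, (L p).card = min (2 * B + D) (p - (N - m - (2 * B + D)))
  mem : ∀ p < N, ∀ v ∈ L p, (∃ j < m, p = N - m + j ∧ Pre N D B m h j v) ∨ Pad N D B m h p v
  pre : ∀ j < m, ∀ v, Pre N D B m h j v → v ∈ L (N - m + j)

variable {N n c D B m : ℕ} {h : ℕ → ℕ → Prop} [DecidableRel h] {L : ℕ → Finset ℕ}

lemma zc_top (β j : ℕ) (hm : m ≤ N) : zc N m β (N - m + j) = j := by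
  unfold zc
  rw [if_neg (by omega)]
  omega

lemma zc_lt {β p : ℕ} (hp : p < N) (hm : m + β ≤ N) (h0 : 0 < β) : zc N m β p < m + β := by
  unfold zc
  split_ifs <;> omega

lemma zc_inj {β p q : ℕ} (hp : p < N) (hq : q < N) (hp' : N - m - β ≤ p) (hq' : N - m - β ≤ q)
    (e : zc N m β p = zc N m β q) : p = q := by
  unfold zc at e
  split_ifs at e <;> omega

theorem exists_L (H : H0 N n c D B m h) : ∃ L, HL N D B m h L := by
  classical
  have := H.hN
  have := H.hc
  have := H.hcD
  have := H.hB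
  have := H.hm
  have := H.hn
  have key : ∀ p, p < N → ∃ S : Finset ℕ,
      S.card = min (2 * B + D) (p - (N - m - (2 * B + D))) ∧
      (∀ v ∈ S, (∃ j < m, p = N - m + j ∧ Pre N D B m h j v) ∨ Pad N D B m h p v) ∧
      ∀ j < m, p = N - m + j → ∀ v, Pre N D B m h j v → v ∈ S := by
    intro p hp
    set C := (range N).filter (fun v => ∃ j < m, p = N - m + j ∧ Pre N D B m h j v) with hC
    set W := (range N).filter (fun v => Pad N D B m h p v) with hW
    have c1 : C.card ≤ min (2 * B + D) (p - (N - m - (2 * B + D))) := by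
      by_cases e : N - m ≤ p
      · have s : C ⊆ Ico (p - (N - m) - B) (p - (N - m)) ∪ Ioc p (p + B) ∪
            (range N).filter (h p) := by
          intro v hv
          obtain ⟨v1, j, hj, rfl, v2⟩ := mem_filter.1 hv
          simp only [mem_union, mem_Ico, mem_Ioc, mem_filter]
          rcases v2 with v2 | v2 | v2
          · exact Or.inl (Or.inl (by omega))
          · exact Or.inl (Or.inr (by omega))
          · exact Or.inr ⟨v1, H.hs _ _ v2.2.2.2.1⟩
        have a1 := card_le_card s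
        have a2 := card_union_le (Ico (p - (N - m) - B) (p - (N - m)) ∪ Ioc p (p + B))
          ((range N).filter (h p))
        have a3 := card_union_le (Ico (p - (N - m) - B) (p - (N - m))) (Ioc p (p + B))
        have a4 := H.hD p hp
        rw [Nat.card_Ico, Nat.card_Ioc] at a3
        omega
      · have s : C = ∅ := filter_eq_empty_iff.2 fun v _ ⟨j, _, e', _⟩ => by omega
        rw [s]
        exact Nat.zero_le _
    have c2 : 2 * B + D ≤ W.card := by
      have z := zc_lt (m := m) (β := 2 * B + D) hp (by omega) (by omega)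
      have s : Ico (m + (2 * B + D) + (p - (N - m - (2 * B + D))))
          (m + (2 * B + D) + (p - (N - m - (2 * B + D))) + (2 * B + 2 * D)) ⊆
          W ∪ (range N).filter (h (zc N m (2 * B + D) p)) := by
        intro v hv
        rw [mem_Ico] at hv
        have v1 : v ∈ range N := mem_range.2 (by omega)
        by_cases e : h v (zc N m (2 * B + D) p)
        · exact mem_union_right _ (mem_filter.2 ⟨v1, H.hs _ _ e⟩)
        · exact mem_union_left _ (mem_filter.2 ⟨v1, hv.1, hv.2, e⟩)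
      have a1 := card_le_card s
      have a2 := card_union_le W ((range N).filter (h (zc N m (2 * B + D) p)))
      have a3 := H.hD (zc N m (2 * B + D) p) (by omega)
      rw [Nat.card_Ico] at a1
      omega
    obtain ⟨S, s1, s2, s3⟩ := exists_subsuperset_card_eq (subset_union_left (s₁ := C) (s₂ := W))
      c1 (((min_le_left _ _).trans c2).trans (card_le_card subset_union_right))
    refine ⟨S, s3, fun v hv => ?_, fun j hj e v hv => s1 (mem_filter.2 ⟨?_, j, hj, e, hv⟩)⟩
    · rcases mem_union.1 (s2 hv) with e | e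
      · exact Or.inl (mem_filter.1 e).2
      · exact Or.inr (mem_filter.1 e).2
    · rw [mem_range]
      rcases hv with hv | hv | hv <;> omega
  choose! L l1 l2 l3 using key
  exact ⟨L, l1, l2, fun j hj v hv => l3 _ (by omega) j hj rfl v hv⟩

omit [DecidableRel h] in
lemma L_pos (G : HL N D B m h L) {p v : ℕ} (hp : p < N) (hv : v ∈ L p) :
    N - m - (2 * B + D) < p := by
  have a := card_pos.2 ⟨v, hv⟩
  rw [G.card p hp] at a
  omega

omit [DecidableRel h] in
lemma L_le (G : HL N D B m h L) {p : ℕ} (hp : p < N) : (L p).card ≤ 2 * B + D := by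
  rw [G.card p hp]
  exact min_le_left _ _

lemma L_basic (H : H0 N n c D B m h) (G : HL N D B m h L) {p v : ℕ} (hp : p < N) (hv : v ∈ L p) :
    v < N ∧ v ≠ zc N m (2 * B + D) p ∧ ¬ h (zc N m (2 * B + D) p) v ∧ v ≠ p ∧
    (m ≤ v → zc N m (2 * B + D) p < v) ∧ (N - m - (2 * B + D) ≤ v → ¬ h v p → p < v) := by
  have := H.hN
  have := H.hc
  have := H.hcD
  have := H.hB
  have := H.hm
  have := H.hn
  have p0 := L_pos G hp hv
  have z := zc_lt (m := m) (β := 2 * B + D) hp (by omega) (by omega)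
  rcases G.mem p hp v hv with ⟨j, hj, rfl, e⟩ | ⟨e1, e2, e3⟩
  · rw [zc_top _ _ (by omega)]
    rcases e with ⟨e1, e2, e3⟩ | ⟨e1, e2, e3, e4, e5⟩ | ⟨e1, e2, e3, e4, e5⟩
    · exact ⟨by omega, by omega, fun x => e3 (H.hs _ _ x), by omega, by omega, by omega⟩
    · exact ⟨e3, by omega, e5, by omega, by omega, fun _ _ => e1⟩
    · exact ⟨by omega, by omega, fun x => e5 (H.hs _ _ x), by omega, by omega,
        fun _ x => absurd e4 x⟩
  · exact ⟨by omega, by omega, fun x => e3 (H.hs _ _ x), by omega, by omega, by omega⟩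

lemma L_anti (H : H0 N n c D B m h) (G : HL N D B m h L) {p q : ℕ} (hp : p < N) (hq : q < N)
    (h1 : zc N m (2 * B + D) q ∈ L p) (h2 : zc N m (2 * B + D) p ∈ L q) : False := by
  have := H.hN
  have := H.hc
  have := H.hcD
  have := H.hB
  have := H.hm
  have := H.hn
  have zp := zc_lt (m := m) (β := 2 * B + D) hp (by omega) (by omega)
  have zq := zc_lt (m := m) (β := 2 * B + D) hq (by omega) (by omega)
  rcases G.mem p hp _ h1 with ⟨j, hj, rfl, e⟩ | ⟨e1, -⟩
  · rcases G.mem q hq _ h2 with ⟨i, hi, rfl, e'⟩ | ⟨e1, -⟩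
    · rw [zc_top _ _ (by omega)] at e e'
      unfold Pre at e e'
      omega
    · omega
  · omega

lemma L_count (H : H0 N n c D B m h) (G : HL N D B m h L) {x : ℕ} (hx : x < N) :
    ((range N).filter (fun p => x ∈ L p)).card ≤ 4 * B + 3 * D := by
  have := H.hN
  have := H.hc
  have := H.hcD
  have := H.hB
  have := H.hm
  have := H.hn
  obtain ⟨Y, hY⟩ : ∃ Y, Y = x + (N - m - (2 * B + D)) - (m + (2 * B + D)) := ⟨_, rfl⟩
  have s : (range N).filter (fun p => x ∈ L p) ⊆ Ioc (N - m + x) (N - m + x + B) ∪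
      Ico (x - B) x ∪ (range N).filter (h x) ∪ Ioc (Y - (2 * B + 2 * D)) Y := by
    intro p hp
    obtain ⟨p1, p2⟩ := mem_filter.1 hp
    have p0 := L_pos G (mem_range.1 p1) p2
    simp only [mem_union, mem_Ico, mem_Ioc, mem_filter]
    rcases G.mem p (mem_range.1 p1) x p2 with ⟨j, hj, rfl, e | e | e⟩ | ⟨e1, e2, -⟩
    · exact Or.inl (Or.inl (Or.inl (by omega)))
    · exact Or.inl (Or.inl (Or.inr (by omega)))
    · exact Or.inl (Or.inr ⟨p1, e.2.2.2.1⟩)
    · exact Or.inr (by omega)
  have a1 := card_le_card s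
  have a2 := card_union_le (Ioc (N - m + x) (N - m + x + B) ∪
      Ico (x - B) x ∪ (range N).filter (h x)) (Ioc (Y - (2 * B + 2 * D)) Y)
  have a3 := card_union_le (Ioc (N - m + x) (N - m + x + B) ∪ Ico (x - B) x)
    ((range N).filter (h x))
  have a4 := card_union_le (Ioc (N - m + x) (N - m + x + B)) (Ico (x - B) x)
  have a5 := H.hD x hx
  rw [Nat.card_Ioc] at a2
  rw [Nat.card_Ioc, Nat.card_Ico] at a4
  omega

end Pool.Agent.MP_f65396_co.h15
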