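import Pool.Agent.MP_f65396_co.h15.Core1
import Mathlib.Combinatorics.Enumerative.DoubleCounting

/-! The allowed targets of the first stars and the degree estimates. -/

set_option autoImplicit false

namespace Pool.Agent.MP_f65396_co.h15

open Finset

/-- `u v` is an edge of a second star with centre `u`. -/
def sec (N m β : ℕ) (L : ℕ → Finset ℕ) (u v : ℕ) : Prop := ∃ p < N, zc N m β p = u ∧ v ∈ L p

/-- `y` is a vertex of the second star of the colour of `x`. -/
def blk (N m β : ℕ) (L : ℕ → Finset ℕ) (x y : ℕ) : Prop :=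
  (N - m - β ≤ x ∧ y = zc N m β x) ∨ y ∈ L x

open Classical in
/-- The allowed leaves of the first star at `x`. -/
noncomputable def alw (N m β : ℕ) (h : ℕ → ℕ → Prop) (L : ℕ → Finset ℕ) (x : ℕ) : Finset ℕ :=
  (range N).filter fun y => y ≠ x ∧ ¬ h x y ∧ ¬ sec N m β L x y ∧ ¬ sec N m β L y x ∧
    ¬ blk N m β L x y

variable {N n c D B m : ℕ} {h : ℕ → ℕ → Prop} [DecidableRel h] {L : ℕ → Finset ℕ}

omit [DecidableRel h] in
lemma mem_alw {β x y : ℕ} : y ∈ alw N m β h L x ↔ y < N ∧ y ≠ x ∧ ¬ h x y ∧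
    ¬ sec N m β L x y ∧ ¬ sec N m β L y x ∧ ¬ blk N m β L x y := by
  classical
  unfold alw
  simp only [mem_filter, mem_range]

lemma mem_nat {al : ℕ → Finset ℕ} {x y : ℕ} : y ∈ nat al x ↔ y ∈ al x ∧ (y < x ∨ x ∉ al y) := by
  unfold nat
  rw [mem_filter]

lemma nat_cases (H : H0 N n c D B m h) {β x y : ℕ} (hx : x < N)
    (hy : y ∈ nat (alw N m β h L) x) : y < x ∨ (x < y ∧ blk N m β L y x) := by
  obtain ⟨y1, y2⟩ := mem_nat.1 hy
  obtain ⟨a1, a2, a3, a4, a5, a6⟩ := mem_alw.1 y1
  by_cases e : y < x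
  · exact Or.inl e
  refine Or.inr ⟨by omega, ?_⟩
  by_contra k
  exact y2.resolve_left e (mem_alw.2 ⟨hx, a2.symm, fun t => a3 (H.hs _ _ t), a5, a4, k⟩)

lemma card_ctr (β x : ℕ) :
    ((range N).filter (fun y => N - m - β ≤ y ∧ x = zc N m β y)).card ≤ 1 := by
  refine card_le_one.2 fun a ha b hb => ?_
  obtain ⟨a1, a2, a3⟩ := mem_filter.1 ha
  obtain ⟨b1, b2, b3⟩ := mem_filter.1 hb
  exact zc_inj (mem_range.1 a1) (mem_range.1 b1) a2 b2 (a3.symm.trans b3)

lemma chk_K (H : H0 N n c D B m h) (G : HL N D B m h L) {x : ℕ} (hx : x < N) :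
    ((range N).filter (fun y => ¬ (y ∈ alw N m (2 * B + D) h L x ∧
      x ∈ alw N m (2 * B + D) h L y))).card ≤ 13 * B := by
  classical
  have := H.hc
  have := H.hcD
  have := H.hB
  obtain ⟨S, s1, s2⟩ : ∃ S : Finset ℕ, S.card ≤ 2 * B + D ∧
      ∀ y, sec N m (2 * B + D) L x y → y ∈ S := by
    by_cases e : ∃ y, sec N m (2 * B + D) L x y
    · obtain ⟨y, p, p1, p2, p3⟩ := e
      refine ⟨L p, L_le G p1, fun y' ⟨q, q1, q2, q3⟩ => ?_⟩
      rwa [zc_inj p1 q1 (L_pos G p1 p3).le (L_pos G q1 q3).le (p2.trans q2.symm)]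
    · exact ⟨∅, by simp, fun y hy => absurd ⟨y, hy⟩ e⟩
  set P := (range N).filter (fun p => x ∈ L p) with hP
  set Z := (range N).filter (fun y => N - m - (2 * B + D) ≤ y ∧ x = zc N m (2 * B + D) y) with hZ
  have s : (range N).filter (fun y => ¬ (y ∈ alw N m (2 * B + D) h L x ∧
      x ∈ alw N m (2 * B + D) h L y)) ⊆
      insert x (insert (zc N m (2 * B + D) x) (((range N).filter (h x) ∪ S) ∪
        ((P.image (zc N m (2 * B + D)) ∪ L x) ∪ (Z ∪ P)))) := by
    intro y hy
    obtain ⟨y1, y2⟩ := mem_filter.1 hy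
    by_contra k
    simp only [mem_insert, mem_union, not_or] at k
    obtain ⟨k1, k2, ⟨k3, k4⟩, ⟨k5, k6⟩, k7, k8⟩ := k
    have b1 : ¬ h x y := fun t => k3 (mem_filter.2 ⟨y1, t⟩)
    have b2 : ¬ sec N m (2 * B + D) L x y := fun t => k4 (s2 y t)
    have b3 : ¬ sec N m (2 * B + D) L y x := fun ⟨p, p1, p2, p3⟩ =>
      k5 (mem_image.2 ⟨p, mem_filter.2 ⟨mem_range.2 p1, p3⟩, p2⟩)
    refine y2 ⟨mem_alw.2 ⟨mem_range.1 y1, k1, b1, b2, b3, ?_⟩,
      mem_alw.2 ⟨hx, Ne.symm k1, fun t => b1 (H.hs _ _ t), b3, b2, ?_⟩⟩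
    · rintro (t | t)
      · exact k2 t.2
      · exact k6 t
    · rintro (t | t)
      · exact k7 (mem_filter.2 ⟨y1, t⟩)
      · exact k8 (mem_filter.2 ⟨y1, t⟩)
  have a1 := card_le_card s
  have a2 := card_insert_le x (insert (zc N m (2 * B + D) x) (((range N).filter (h x) ∪ S) ∪
        ((P.image (zc N m (2 * B + D)) ∪ L x) ∪ (Z ∪ P))))
  have a3 := card_insert_le (zc N m (2 * B + D) x) (((range N).filter (h x) ∪ S) ∪
        ((P.image (zc N m (2 * B + D)) ∪ L x) ∪ (Z ∪ P)))
  have a4 := card_union_le ((range N).filter (h x) ∪ S)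
    ((P.image (zc N m (2 * B + D)) ∪ L x) ∪ (Z ∪ P))
  have a5 := card_union_le ((range N).filter (h x)) S
  have a6 := card_union_le (P.image (zc N m (2 * B + D)) ∪ L x) (Z ∪ P)
  have a7 := card_union_le (P.image (zc N m (2 * B + D))) (L x)
  have a8 := card_union_le Z P
  have a9 : (P.image (zc N m (2 * B + D))).card ≤ P.card := card_image_le
  have b1 := H.hD x hx
  have b2 := L_le G hx
  have b3 : Z.card ≤ 1 := card_ctr _ _
  have b4 : P.card ≤ 4 * B + 3 * D := L_count H G hx
  omega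

lemma chk_Q (H : H0 N n c D B m h) (G : HL N D B m h L) {x : ℕ} (hx : x < m) :
    (nat (alw N m (2 * B + D) h L) x).card ≤ x - B + if x < c then 0 else 1 := by
  have := H.hN
  have := H.hc
  have := H.hcD
  have := H.hB
  have := H.hm
  have := H.hn
  have s : nat (alw N m (2 * B + D) h L) x ⊆
      range (x - B) ∪ if x < c then ∅ else {N - m + x} := by
    intro y hy
    obtain ⟨a1, a2, a3, a4, a5, a6⟩ := mem_alw.1 (mem_nat.1 hy).1
    have sx : y ∉ L (N - m + x) := fun t => a4 ⟨N - m + x, by omega, zc_top _ _ (by omega), t⟩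
    rcases nat_cases H (by omega) hy with e | ⟨e, ⟨e1, e2⟩ | e1⟩
    · refine mem_union_left _ (mem_range.2 ?_)
      by_contra k
      exact sx (G.pre x hx y (Or.inl ⟨e, by omega, fun t => a3 (H.hs _ _ t)⟩))
    · have e3 : y = N - m + x := by
        unfold zc at e2
        split_ifs at e2 <;> omega
      refine mem_union_right _ ?_
      rw [if_neg fun t => a3 (e3 ▸ H.bot x t)]
      exact mem_singleton.2 e3
    · exfalso
      rcases G.mem y a1 x e1 with ⟨j, hj, rfl, t | t | t⟩ | ⟨t, -⟩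
      · refine sx (G.pre x hx _ (Or.inr (Or.inl ⟨by omega, by omega, a1, ?_, a3⟩)))
        rw [Nat.add_sub_cancel_left]
        exact t.2.2
      · omega
      · exact a3 t.2.2.2.1
      · omega
  refine (card_le_card s).trans ((card_union_le _ _).trans ?_)
  rw [card_range]
  split_ifs <;> simp

lemma chk_D (H : H0 N n c D B m h) (G : HL N D B m h L) {x : ℕ} (hm : m ≤ x) (hx : x < N) :
    (nat (alw N m (2 * B + D) h L) x).card ≤ x + 1 := by
  set P := (range N).filter (fun p => x ∈ L p) with hP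
  set Z := (range N).filter (fun y => N - m - (2 * B + D) ≤ y ∧ x = zc N m (2 * B + D) y) with hZ
  have s : nat (alw N m (2 * B + D) h L) x ⊆
      (range x \ P.image (zc N m (2 * B + D))) ∪ (Z ∪ P) := by
    intro y hy
    obtain ⟨a1, a2, a3, a4, a5, a6⟩ := mem_alw.1 (mem_nat.1 hy).1
    rcases nat_cases H hx hy with e | ⟨e, e1 | e1⟩
    · refine mem_union_left _ (mem_sdiff.2 ⟨mem_range.2 e, fun t => a5 ?_⟩)
      obtain ⟨p, p1, p2⟩ := mem_image.1 t
      exact ⟨p, mem_range.1 (mem_filter.1 p1).1, p2, (mem_filter.1 p1).2⟩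
    · exact mem_union_right _ (mem_union_left _ (mem_filter.2 ⟨mem_range.2 a1, e1⟩))
    · exact mem_union_right _ (mem_union_right _ (mem_filter.2 ⟨mem_range.2 a1, e1⟩))
  have s2 : P.image (zc N m (2 * B + D)) ⊆ range x := by
    intro y hy
    obtain ⟨p, p1, rfl⟩ := mem_image.1 hy
    exact mem_range.2 ((L_basic H G (mem_range.1 (mem_filter.1 p1).1)
      (mem_filter.1 p1).2).2.2.2.2.1 hm)
  have s3 : (P.image (zc N m (2 * B + D))).card = P.card := by
    refine card_image_of_injOn fun p hp q hq e => ?_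
    obtain ⟨p1, p2⟩ := mem_filter.1 hp
    obtain ⟨q1, q2⟩ := mem_filter.1 hq
    rw [mem_range] at p1 q1
    exact zc_inj p1 q1 (L_pos G p1 p2).le (L_pos G q1 q2).le e
  have a1 := card_le_card s
  have a2 := card_union_le (range x \ P.image (zc N m (2 * B + D))) (Z ∪ P)
  have a3 := card_union_le Z P
  have a4 : Z.card ≤ 1 := card_ctr _ _
  have a5 := card_sdiff_add_card_eq_card s2
  rw [card_range] at a5
  omega

lemma chk_P (H : H0 N n c D B m h) (G : HL N D B m h L) {j : ℕ} (hj : j < m) :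
    N - m + j + 1 ≤ (nat (alw N m (2 * B + D) h L) (N - m + j)).card + c + (2 * B + D) := by
  have := H.hN
  have := H.hc
  have := H.hcD
  have := H.hB
  have := H.hm
  have := H.hn
  have hx : N - m + j < N := by omega
  have key : ∀ y < N - m + j, y ∈ nat (alw N m (2 * B + D) h L) (N - m + j) ∨ y = j ∨
      y ∈ L (N - m + j) ∨ h (N - m + j) y ∨ (j < m - 3 * D ∧ ∃ p < N, N - m + j < p ∧
        h (N - m + j) p ∧ zc N m (2 * B + D) p = y) := by
    intro y hy
    by_contra k
    simp only [not_or] at k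
    obtain ⟨k1, k2, k3, k4, k5⟩ := k
    refine k1 (mem_nat.2 ⟨mem_alw.2 ⟨by omega, by omega, k4, ?_, ?_, ?_⟩, Or.inl hy⟩)
    · rintro ⟨p, p1, p2, -⟩
      have := zc_lt (m := m) (β := 2 * B + D) p1 (by omega) (by omega)
      omega
    · rintro ⟨p, p1, p2, p3⟩
      rcases G.mem p p1 _ p3 with ⟨i, hi, rfl, t | t | t⟩ | ⟨-, t, -⟩
      · omega
      · rw [zc_top _ _ (by omega)] at p2
        rw [Nat.add_sub_cancel_left] at t
        exact k3 (G.pre j hj y (Or.inl ⟨by omega, by omega, p2 ▸ t.2.2.2.1⟩))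
      · exact k5 ⟨by omega, _, p1, by omega, t.2.2.2.1, p2⟩
      · omega
    · rintro (t | t)
      · rw [zc_top _ _ (by omega)] at t
        exact k2 t.2
      · exact k3 t
  have b1 := L_le G hx
  by_cases e : j < m - 3 * D
  · set U := (Ioc (N - m + j) (N - m + j + 3 * D)).filter
      (fun v => ¬ h j (v - (N - m)) ∧ ¬ h j v) with hU
    have u1 : U ⊆ L (N - m + j) := by
      intro v hv
      obtain ⟨v1, v2⟩ := mem_filter.1 hv
      rw [mem_Ioc] at v1
      exact G.pre j hj v (Or.inr (Or.inl ⟨v1.1, by omega, by omega, v2⟩))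
    have u2 : Ioc (N - m + j) (N - m + j + 3 * D) ⊆ U ∪ ((range N).filter (h j) ∪
        ((range N).filter (h j)).image (fun i => N - m + i)) := by
      intro v hv
      have v1 := mem_Ioc.1 hv
      by_cases t1 : h j v
      · exact mem_union_right _ (mem_union_left _ (mem_filter.2 ⟨mem_range.2 (by omega), t1⟩))
      by_cases t2 : h j (v - (N - m))
      · exact mem_union_right _ (mem_union_right _ (mem_image.2 ⟨v - (N - m),
          mem_filter.2 ⟨mem_range.2 (by omega), t2⟩, by omega⟩))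
      · exact mem_union_left _ (mem_filter.2 ⟨hv, t2, t1⟩)
    have s : range (N - m + j) ⊆ insert j (nat (alw N m (2 * B + D) h L) (N - m + j) ∪
        ((L (N - m + j) \ U) ∪ ((range N).filter (h (N - m + j))).image
          (fun p => if p < N - m + j then p else zc N m (2 * B + D) p))) := by
      intro y hy
      rw [mem_range] at hy
      simp only [mem_insert, mem_union]
      rcases key y hy with t | t | t | t | ⟨-, p, p1, p2, p3, p4⟩
      · exact Or.inr (Or.inl t)
      · exact Or.inl t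
      · refine Or.inr (Or.inr (Or.inl (mem_sdiff.2 ⟨t, fun k => ?_⟩)))
        have := mem_Ioc.1 (mem_filter.1 k).1
        omega
      · exact Or.inr (Or.inr (Or.inr (mem_image.2 ⟨y, mem_filter.2 ⟨mem_range.2 (by omega), t⟩,
          if_pos hy⟩)))
      · exact Or.inr (Or.inr (Or.inr (mem_image.2 ⟨p, mem_filter.2 ⟨mem_range.2 p1, p3⟩,
          (if_neg (by omega)).trans p4⟩)))
    have a1 := (card_le_card s).trans ((card_insert_le _ _).trans (Nat.succ_le_succ
      ((card_union_le _ _).trans (Nat.add_le_add_left ((card_union_le _ _).trans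
        (Nat.add_le_add_left (card_image_le.trans (H.hD _ hx)) _)) _))))
    have a2 := (card_le_card u2).trans ((card_union_le _ _).trans (Nat.add_le_add_left
      ((card_union_le _ _).trans (Nat.add_le_add (H.hD j (by omega))
        (card_image_le.trans (H.hD j (by omega))))) _))
    have a3 := card_sdiff_add_card_eq_card u1
    rw [card_range] at a1
    rw [Nat.card_Ioc] at a2
    omega
  · have s : range (N - m + j) ⊆ insert j (nat (alw N m (2 * B + D) h L) (N - m + j) ∪
        (L (N - m + j) ∪ (range (N - m + j)).filter (fun x => h x (N - m + j) ∧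
          ((m - 3 * D ≤ x ∧ x < m) ∨ N - 3 * D ≤ x ∨ h x j)))) := by
      intro y hy
      simp only [mem_insert, mem_union]
      rcases key y (mem_range.1 hy) with t | t | t | t | ⟨t, -⟩
      · exact Or.inr (Or.inl t)
      · exact Or.inl t
      · exact Or.inr (Or.inr (Or.inl t))
      · by_cases k : (m - 3 * D ≤ y ∧ y < m) ∨ N - 3 * D ≤ y ∨ h y j
        · exact Or.inr (Or.inr (Or.inr (mem_filter.2 ⟨hy, H.hs _ _ t, k⟩)))
        · simp only [not_or] at k
          exact Or.inr (Or.inr (Or.inl (G.pre j hj y (Or.inr (Or.inr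
            ⟨by omega, by omega, k.1, H.hs _ _ t, k.2.2⟩)))))
      · exact absurd t e
    have a1 := (card_le_card s).trans ((card_insert_le _ _).trans (Nat.succ_le_succ
      ((card_union_le _ _).trans (Nat.add_le_add_left (card_union_le _ _) _))))
    have a2 := H.top j (by omega) hj
    rw [card_range] at a1
    omega

end Pool.Agent.MP_f65396_co.h15
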