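import Pool.Agent.MP_f65396_co.h15.Core2
import Mathlib.Tactic.Linarith
import Mathlib.Tactic.Ring

/-! The total count and the two stars of every colour. -/

set_option autoImplicit false

namespace Pool.Agent.MP_f65396_co.h15

open Finset

variable {N n c D B m : ℕ} {h : ℕ → ℕ → Prop} [DecidableRel h] {L : ℕ → Finset ℕ}

lemma sum_flip_le (N : ℕ) (S : ℕ → Finset ℕ) :
    ∑ x ∈ range N, ((range N).filter (fun y => x ∈ S y)).card ≤ ∑ y ∈ range N, (S y).card := by
  simp only [card_filter]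
  rw [sum_comm]
  refine sum_le_sum fun y _ => ?_
  rw [← card_filter]
  exact card_le_card fun x hx => (mem_filter.1 hx).2

lemma gauss (c : ℕ) (hc : 1 ≤ c) (n : ℕ) :
    2 * ∑ x ∈ range (n + c), (x + 1 - c) = n * (n + 1) := by
  induction n with
  | zero =>
    rw [sum_eq_zero fun x hx => by
      rw [mem_range] at hx
      omega, zero_mul, mul_zero]
  | succ n ih =>
    rw [show n + 1 + c = n + c + 1 by omega, sum_range_succ, mul_add, ih,
      show n + c + 1 - c = n + 1 by omega]
    ring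

lemma chk_tot (H : H0 N n c D B m h) (G : HL N D B m h L) :
    ∑ x ∈ range N, (x + 1 - c - (L x).card) ≤
      ∑ x ∈ range N, (nat (alw N m (2 * B + D) h L) x).card := by
  classical
  have := H.hN
  have := H.hc
  have := H.hcD
  have := H.hB
  have := H.hm
  have := H.hn
  set S : ℕ → Finset ℕ := fun x => (range N).filter (fun y => sec N m (2 * B + D) L y x) with hS
  have nb : ∀ x < N, ∀ y < N, ¬ h x y → blk N m (2 * B + D) L x y →
      blk N m (2 * B + D) L y x → False := by
    intro x hx y hy k b1 b2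
    have zx := zc_lt (m := m) (β := 2 * B + D) hx (by omega) (by omega)
    have zy := zc_lt (m := m) (β := 2 * B + D) hy (by omega) (by omega)
    rcases b1 with b1 | b1 <;> rcases b2 with b2 | b2
    · omega
    · have := L_pos G hy b2
      omega
    · have := L_pos G hx b1
      omega
    · have e1 := (L_basic H G hx b1).2.2.2.2.2 (L_pos G hy b2).le fun t => k (H.hs _ _ t)
      have e2 := (L_basic H G hy b2).2.2.2.2.2 (L_pos G hx b1).le k
      omega
  have t1 : ∀ x ∈ range N, N - 1 ≤ ((range N).filter (h x)).card +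
      (((nat (alw N m (2 * B + D) h L) x).card +
        ((range N).filter (fun y => x ∈ nat (alw N m (2 * B + D) h L) y)).card) +
      ((S x).card + ((range N).filter (fun y => x ∈ S y)).card)) := by
    intro x hx
    have hx' := mem_range.1 hx
    have s : (range N).erase x ⊆ (range N).filter (h x) ∪
        ((nat (alw N m (2 * B + D) h L) x ∪
          (range N).filter (fun y => x ∈ nat (alw N m (2 * B + D) h L) y)) ∪
        (S x ∪ (range N).filter (fun y => x ∈ S y))) := by
      intro y hy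
      obtain ⟨y1, y2⟩ := mem_erase.1 hy
      have hy' := mem_range.1 y2
      by_contra k
      simp only [mem_union, not_or] at k
      obtain ⟨k1, ⟨k2, k3⟩, k4, k5⟩ := k
      have b1 : ¬ h x y := fun t => k1 (mem_filter.2 ⟨y2, t⟩)
      have b2 : ¬ sec N m (2 * B + D) L y x := fun t => k4 (mem_filter.2 ⟨y2, t⟩)
      have b3 : ¬ sec N m (2 * B + D) L x y := fun t =>
        k5 (mem_filter.2 ⟨y2, mem_filter.2 ⟨hx, t⟩⟩)
      have c1 : ¬ blk N m (2 * B + D) L x y → y ∈ alw N m (2 * B + D) h L x := fun t =>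
        mem_alw.2 ⟨hy', y1, b1, b3, b2, t⟩
      have c2 : ¬ blk N m (2 * B + D) L y x → x ∈ alw N m (2 * B + D) h L y := fun t =>
        mem_alw.2 ⟨hx', y1.symm, fun u => b1 (H.hs _ _ u), b2, b3, t⟩
      have k3' : x ∉ nat (alw N m (2 * B + D) h L) y := fun t => k3 (mem_filter.2 ⟨y2, t⟩)
      rw [mem_nat] at k2 k3'
      by_cases d1 : y ∈ alw N m (2 * B + D) h L x
      · by_cases d2 : x ∈ alw N m (2 * B + D) h L y
        · rcases lt_or_gt_of_ne y1 with u | u
          · exact k2 ⟨d1, Or.inl u⟩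
          · exact k3' ⟨d2, Or.inl u⟩
        · exact k2 ⟨d1, Or.inr d2⟩
      · exact k3' ⟨c2 fun u => d1 (c1 fun u' => nb x hx' y hy' b1 u' u), Or.inr d1⟩
    have a1 := (card_le_card s).trans ((card_union_le _ _).trans (Nat.add_le_add_left
      ((card_union_le _ _).trans (Nat.add_le_add (card_union_le _ _) (card_union_le _ _))) _))
    rwa [card_erase_of_mem hx, card_range] at a1
  have t2 := sum_le_sum t1
  simp only [sum_add_distrib, sum_const, card_range, smul_eq_mul] at t2
  have t3 := sum_flip_le N (nat (alw N m (2 * B + D) h L))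
  have t4 := sum_flip_le N S
  have t5 : ∑ x ∈ range N, (S x).card ≤ ∑ x ∈ range N, (L x).card := by
    refine le_trans (sum_le_sum fun x _ => ?_) (sum_flip_le N L)
    refine le_trans (card_le_card fun y hy => ?_) (card_image_le (f := zc N m (2 * B + D)))
    obtain ⟨p, p1, p2, p3⟩ := (mem_filter.1 hy).2
    exact mem_image.2 ⟨p, mem_filter.2 ⟨mem_range.2 p1, p3⟩, p2⟩
  have t6 : ∑ x ∈ range N, (x + 1 - c - (L x).card) + ∑ x ∈ range N, (L x).card =
      ∑ x ∈ range N, (x + 1 - c) := by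
    rw [← sum_add_distrib]
    refine sum_congr rfl fun x hx => ?_
    rw [G.card x (mem_range.1 hx)]
    omega
  have t7 := gauss c (by omega) n
  have t8 := H.hsum
  rw [← H.hN] at t7
  omega

/-- Two stars for every position. -/
def Out (N c : ℕ) (h : ℕ → ℕ → Prop) : Prop := ∃ (z : ℕ → ℕ) (A L : ℕ → Finset ℕ),
  (∀ p < N, z p < N) ∧ (∀ p < N, ∀ y ∈ A p, y < N ∧ y ≠ p ∧ ¬ h p y) ∧
  (∀ p < N, ∀ y ∈ L p, y < N ∧ y ≠ z p ∧ ¬ h (z p) y ∧ z p ≠ p ∧ z p ∉ A p ∧ y ≠ p ∧ y ∉ A p) ∧
  (∀ p < N, c ≤ p → (A p).card + (L p).card + c = p + 1) ∧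
  (∀ p, p + 1 < N → (A p).card ≤ (A (p + 1)).card ∧ (L p).card ≤ (L (p + 1)).card) ∧
  (∀ p < N, ∀ q < N, q ∈ A p → p ∉ A q) ∧
  (∀ p < N, ∀ q < N, ∀ y ∈ A p, ∀ w ∈ L q, ¬ (p = z q ∧ y = w) ∧ ¬ (p = w ∧ y = z q)) ∧
  ∀ p < N, ∀ q < N, ∀ y ∈ L p, ∀ w ∈ L q, (z p = z q → p = q) ∧ ¬ (z p = w ∧ y = z q)

theorem core (ori : OrientS) (H : H0 N n c D B m h) : Out N c h := by
  obtain ⟨L, G⟩ := exists_L H
  have hN := H.hN
  have hc := H.hc
  have hcD := H.hcD
  have hB := H.hB
  have hm := H.hm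
  have hn := H.hn
  have hn' := H.hn'
  obtain ⟨A, a1, a2⟩ := ori N m B (B - c) (13 * B) (3 * B) (c * N + (2 * B + D) * (2 * B + D))
    (alw N m (2 * B + D) h L) (fun x => x + 1 - c - (L x).card) (fun x => c + (L x).card)
    (fun x _ y hy => ⟨(mem_alw.1 hy).1, (mem_alw.1 hy).2.1⟩) (fun x hx => chk_K H G hx)
    (chk_tot H G)
    (fun x hx => by
      have e1 := chk_Q H G hx
      have e2 := G.card x (by omega)
      split_ifs at e1 <;> omega)
    (fun x h1 hx => by
      have e1 := chk_Q H G hx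
      have e2 := G.card x (by omega)
      split_ifs at e1 <;> omega)
    (fun x h1 hx => by
      have e1 := chk_P H G (j := x - (N - m)) (by omega)
      have e2 := G.card x hx
      rw [show N - m + (x - (N - m)) = x by omega] at e1
      omega)
    (fun x h1 hx => by
      have e1 := chk_D H G h1 hx
      have e2 := G.card x hx
      omega)
    (by
      rw [sum_add_distrib, sum_const, smul_eq_mul, Nat.card_Ico, mul_comm]
      refine Nat.add_le_add (Nat.mul_le_mul_left _ (by omega)) ?_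
      rw [← sum_filter_ne_zero]
      refine (sum_le_card_nsmul _ _ (2 * B + D) fun x hx => ?_).trans
        (Nat.mul_le_mul_right _ ?_)
      · have := mem_Ico.1 (mem_filter.1 hx).1
        exact L_le G (by omega)
      · refine (card_le_card (t := Ico (N - m - (2 * B + D)) (N - m)) fun x hx => ?_).trans ?_
        · obtain ⟨x1, x2⟩ := mem_filter.1 hx
          rw [mem_Ico] at x1 ⊢
          rw [G.card x (by omega)] at x2
          omega
        · rw [Nat.card_Ico]
          omega)
    (fun x _ => by omega) (by omega)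
    (by
      have e1 : (20 * c) * N ≤ B * (514 * B) := Nat.mul_le_mul (by omega) (by omega)
      have e2 : (2 * B + D) * (2 * B + D) ≤ (3 * B) * (3 * B) :=
        Nat.mul_le_mul (by omega) (by omega)
      have e3 : (19 * B) * B ≤ (20 * (B - c)) * B := Nat.mul_le_mul_right _ (by omega)
      rw [hm]
      generalize B - c = E at e3 ⊢
      nlinarith)
  have am : ∀ p < N, ∀ y ∈ A p, _ := fun p hp y hy => mem_alw.1 ((a1 p hp).1 hy)
  refine ⟨zc N m (2 * B + D), A, L, fun p hp => ?_, fun p hp y hy => ?_, fun p hp y hy => ?_,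
    fun p hp h1 => ?_, fun p hp => ?_, a2, fun p hp q hq y hy w hw => ?_,
    fun p hp q hq y hy w hw => ?_⟩
  · have := zc_lt (m := m) (β := 2 * B + D) hp (by omega) (by omega)
    omega
  · exact ⟨(am p hp y hy).1, (am p hp y hy).2.1, (am p hp y hy).2.2.1⟩
  · obtain ⟨b1, b2, b3, b4, -⟩ := L_basic H G hp hy
    have b5 := L_pos G hp hy
    have b6 := zc_lt (m := m) (β := 2 * B + D) hp (by omega) (by omega)
    exact ⟨b1, b2, b3, by omega, fun t => (am p hp _ t).2.2.2.2.2 (Or.inl ⟨b5.le, rfl⟩), b4,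
      fun t => (am p hp _ t).2.2.2.2.2 (Or.inr hy)⟩
  · have e1 := (a1 p hp).2
    have e2 := G.card p hp
    omega
  · have e1 := (a1 p (by omega)).2
    have e2 := G.card p (by omega)
    have e3 := (a1 (p + 1) hp).2
    have e4 := G.card (p + 1) hp
    omega
  · obtain ⟨-, -, -, b1, b2, -⟩ := am p hp y hy
    exact ⟨fun t => b1 ⟨q, hq, t.1.symm, t.2 ▸ hw⟩, fun t => b2 ⟨q, hq, t.2.symm, t.1 ▸ hw⟩⟩
  · exact ⟨zc_inj hp hq (L_pos G hp hy).le (L_pos G hq hw).le,
      fun t => L_anti H G hp hq (t.2 ▸ hy) (t.1 ▸ hw)⟩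

theorem core_one (N : ℕ) (hN : 0 < N) (h : ℕ → ℕ → Prop) (hh : ∀ p < N, ∀ q < N, ¬ h p q) :
    Out N 1 h := by
  refine ⟨fun _ => 0, range, fun _ => ∅, fun _ _ => hN, fun p hp y hy => ?_, by simp,
    fun p _ _ => by simp, fun p _ => by simp, fun p _ q _ h1 h2 => ?_, by simp, by simp⟩
  · rw [mem_range] at hy
    exact ⟨by omega, by omega, hh p hp y (by omega)⟩
  · rw [mem_range] at h1 h2
    omega

end Pool.Agent.MP_f65396_co.h15
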