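import Pool.Agent.MP_f65396_co.h15.Spec
import Mathlib.Combinatorics.Hall.Basic
import Mathlib.Algebra.Order.BigOperators.Group.Finset
import Mathlib.Combinatorics.Enumerative.DoubleCounting

/-! Orientation with prescribed out-degrees. -/

set_option autoImplicit false

namespace Pool.Agent.MP_f65396_co.h15

open Finset

namespace Ori

/-- `y` is lower than `x` and both may take the edge. -/
abbrev fr (al : ℕ → Finset ℕ) (y x : ℕ) : Prop := y < x ∧ x ∈ al y ∧ y ∈ al x

theorem hall (N : ℕ) (al : ℕ → Finset ℕ) (a : ℕ → ℕ) (hne : ∀ x < N, x ∉ al x)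
    (h : ∀ T ⊆ range N, ∑ x ∈ T, a x ≤ (T.biUnion fun x => (al x).image fun y => s(x, y)).card) :
    ∃ A : ℕ → Finset ℕ, (∀ x < N, A x ⊆ al x ∧ (A x).card = a x) ∧
      ∀ x < N, ∀ y < N, y ∈ A x → x ∉ A y := by
  classical
  obtain ⟨f, hf, hm⟩ := (all_card_le_biUnion_card_iff_existsInjective'
    (fun i : (Σ x : Fin N, Fin (a x)) => (al i.1).image fun y => s((i.1 : ℕ), y))).1 (by
      intro s
      have h1 := h (s.image fun i => (i.1 : ℕ)) (fun x hx => by
        obtain ⟨i, -, rfl⟩ := mem_image.1 hx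
        exact mem_range.2 i.1.2)
      rw [image_biUnion] at h1
      refine le_trans ?_ h1
      have e : ∑ x ∈ s.image (fun i => (i.1 : ℕ)), a x =
          ((s.image fun i => (i.1 : ℕ)).sigma fun x => range (a x)).card := by
        rw [card_sigma]
        simp only [card_range]
      rw [e]
      refine card_le_card_of_injOn (fun i => ⟨(i.1 : ℕ), (i.2 : ℕ)⟩) (fun i hi => ?_) ?_
      · exact mem_coe.2 (mem_sigma.2 ⟨mem_image_of_mem _ hi, mem_range.2 i.2.2⟩)
      · rintro ⟨x, j⟩ - ⟨x', j'⟩ - e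
        obtain ⟨e1, e2⟩ := Sigma.mk.inj e
        obtain rfl : x = x' := Fin.ext e1
        obtain rfl : j = j' := Fin.ext (eq_of_heq e2)
        rfl)
  choose g hg hgf using fun i => mem_image.1 (hm i)
  refine ⟨fun x => if hx : x < N then univ.image fun j : Fin (a x) => g ⟨⟨x, hx⟩, j⟩ else ∅,
    fun x hx => ?_, fun x hx y hy h1 h2 => ?_⟩
  · simp only [dif_pos hx]
    refine ⟨fun y hy => ?_, ?_⟩
    · obtain ⟨j, -, rfl⟩ := mem_image.1 hy
      exact hg ⟨⟨x, hx⟩, j⟩
    · rw [card_image_of_injective, card_univ, Fintype.card_fin]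
      intro j j' e
      have e1 : f ⟨⟨x, hx⟩, j⟩ = f ⟨⟨x, hx⟩, j'⟩ := by
        rw [← hgf, ← hgf]
        exact congrArg (fun y => s(x, y)) e
      exact eq_of_heq (Sigma.mk.inj (hf e1)).2
  · simp only [dif_pos hx] at h1
    simp only [dif_pos hy] at h2
    obtain ⟨j, -, e1⟩ := mem_image.1 h1
    obtain ⟨j', -, e2⟩ := mem_image.1 h2
    have e3 : f ⟨⟨x, hx⟩, j⟩ = f ⟨⟨y, hy⟩, j'⟩ := by
      rw [← hgf, ← hgf, e1, e2]
      exact Sym2.eq_swap
    have e4 : x = y := congrArg Fin.val (Sigma.mk.inj (hf e3)).1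
    have h3 : g ⟨⟨x, hx⟩, j⟩ ∈ al x := hg ⟨⟨x, hx⟩, j⟩
    rw [e1, ← e4] at h3
    exact hne x hx h3

theorem count (al : ℕ → Finset ℕ) (T S : Finset ℕ) (hd : ∀ x ∈ S, x ∉ T) :
    ∑ y ∈ T, ((nat al y).card + (S.filter (fr al y)).card) ≤
      (T.biUnion fun x => (al x).image fun y => s(x, y)).card := by
  have e : ∑ y ∈ T, ((nat al y).card + (S.filter (fr al y)).card) =
      (T.sigma fun y => nat al y ∪ S.filter (fr al y)).card := by
    rw [card_sigma]
    refine sum_congr rfl fun y _ => (card_union_of_disjoint (disjoint_left.2 fun x h1 h2 => ?_)).symm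
    obtain ⟨h3, -, h4⟩ := (mem_filter.1 h2).2
    rcases (mem_filter.1 h1).2 with h5 | h5
    · omega
    · exact h5 h4
  rw [e]
  refine card_le_card_of_injOn (fun i => s(i.1, i.2)) (fun i hi => ?_) ?_
  · obtain ⟨h1, h2⟩ := mem_sigma.1 (mem_coe.1 hi)
    refine mem_coe.2 (mem_biUnion.2 ⟨i.1, h1, mem_image_of_mem _ ?_⟩)
    rcases mem_union.1 h2 with h3 | h3
    · exact (mem_filter.1 h3).1
    · exact (mem_filter.1 h3).2.2.1
  · rintro ⟨y, x⟩ hi ⟨y', x'⟩ hi' e
    obtain ⟨h1, h2⟩ := mem_sigma.1 (mem_coe.1 hi)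
    obtain ⟨h1', h2'⟩ := mem_sigma.1 (mem_coe.1 hi')
    rcases Sym2.eq_iff.1 e with ⟨rfl, rfl⟩ | ⟨rfl, rfl⟩
    · rfl
    · exfalso
      have a1 := mem_filter.1 ((mem_union.1 h2).resolve_right fun h => hd _ (mem_filter.1 h).1 h1')
      have a2 := mem_filter.1 ((mem_union.1 h2').resolve_right fun h => hd _ (mem_filter.1 h).1 h1)
      have a3 := a1.2.resolve_right fun h => h a2.1
      have a4 := a2.2.resolve_right fun h => h a1.1
      exact lt_asymm a3 a4

theorem swap (al : ℕ → Finset ℕ) (T S : Finset ℕ) :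
    ∑ y ∈ T, (S.filter (fr al y)).card = ∑ x ∈ S, (T.filter fun y => fr al y x).card :=
  sum_card_bipartiteAbove_eq_sum_card_bipartiteBelow (fr al)

theorem cover {A B C : Finset ℕ} {K : ℕ} (hC : C.card ≤ K) (h : ∀ x ∈ A, x ∉ C → x ∈ B) :
    A.card ≤ B.card + K :=
  (card_le_card fun x hx => mem_union.2 ((em (x ∈ C)).symm.imp (h x hx) id)).trans
    ((card_union_le B C).trans (Nat.add_le_add_left hC _))

end Ori

open Ori in
theorem orient : OrientS := by
  intro N m B E K σ R al a w h1 h2 h3 h4 h5 h6 h7 h8 h9 h10 h11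
  refine hall N al a (fun x hx h => (h1 x hx x h).2 rfl) fun T hT => ?_
  have hTN : ∀ y ∈ T, y < N := fun y hy => mem_range.1 (hT hy)
  obtain ⟨S, hS⟩ : ∃ S, S = range N \ T := ⟨_, rfl⟩
  have hSN : ∀ x ∈ S, x < N ∧ x ∉ T := fun x hx => by
    rw [hS, mem_sdiff, mem_range] at hx
    exact hx
  refine le_trans ?_ (count al T S fun x hx => (hSN x hx).2)
  by_cases hp : 2 * K ≤ (S.filter fun x => N - m ≤ x).card
  · refine sum_le_sum fun y hy => ?_
    have hy' := hTN y hy
    rcases le_or_gt (N - m) y with h | h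
    · exact (h6 y h hy').trans (Nat.le_add_right _ _)
    · have a1 : (range y).card ≤ (nat al y).card + K := cover (h2 y hy') fun x hx hx' => by
        have hxy := mem_range.1 hx
        simp only [mem_filter, mem_range, not_and, not_not, not_forall] at hx'
        obtain ⟨b1, -⟩ := hx' (hxy.trans hy')
        exact mem_filter.2 ⟨b1, Or.inl hxy⟩
      have a2 : (S.filter fun x => N - m ≤ x).card ≤ (S.filter (fr al y)).card + K :=
        cover (h2 y hy') fun x hx hx' => by
          obtain ⟨b1, b2⟩ := mem_filter.1 hx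
          simp only [mem_filter, mem_range, not_and, not_not, not_forall] at hx'
          obtain ⟨b3, b4⟩ := hx' (hSN x b1).1
          exact mem_filter.2 ⟨b1, by omega, b3, b4⟩
      have a3 := h9 y hy'
      rw [card_range] at a1
      omega
  rw [sum_add_distrib, swap]
  rw [← sum_sdiff hT, ← sum_sdiff hT, ← hS] at h3
  suffices h : ∑ x ∈ S, (nat al x).card ≤
      ∑ x ∈ S, a x + ∑ x ∈ S, (T.filter fun y => fr al y x).card by omega
  by_cases hq : K + σ ≤ (T.filter fun y => y < m).card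
  · rw [← sum_add_distrib]
    refine sum_le_sum fun x hx => ?_
    have hx' := (hSN x hx).1
    rcases lt_or_ge x m with h | h
    · exact (h4 x h).trans (Nat.le_add_right _ _)
    · have a1 : (T.filter fun y => y < m).card ≤ (T.filter fun y => fr al y x).card + K :=
        cover (h2 x hx') fun y hy hy' => by
          obtain ⟨b1, b2⟩ := mem_filter.1 hy
          simp only [mem_filter, mem_range, not_and, not_not, not_forall] at hy'
          obtain ⟨b3, b4⟩ := hy' (hTN y b1)
          exact mem_filter.2 ⟨b1, by omega, b4, b3⟩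
      have a2 := h7 x h hx'
      omega
  refine le_trans ?_ (Nat.le_add_right _ _)
  have a1 : ∑ x ∈ S, ((nat al x).card + if B ≤ x ∧ x < m then E else 0) ≤
      ∑ x ∈ S, (a x + ((if m ≤ x ∧ x < N - m then w x else 0) + if N - m ≤ x then σ else 0)) := by
    refine sum_le_sum fun x hx => ?_
    have hx' := (hSN x hx).1
    have b1 := h4 x
    have b2 := h5 x
    have b3 := h7 x
    split_ifs <;> omega
  rw [sum_add_distrib, sum_add_distrib, sum_add_distrib, ← sum_filter, ← sum_filter, ← sum_filter,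
    sum_const, sum_const, smul_eq_mul, smul_eq_mul] at a1
  have a2 : ∑ x ∈ S.filter (fun x => m ≤ x ∧ x < N - m), w x ≤ R :=
    (sum_le_sum_of_subset fun x hx => mem_Ico.2 (mem_filter.1 hx).2).trans h8
  have a3 : (Ico B m).card ≤ (S.filter fun x => B ≤ x ∧ x < m).card + (K + σ) :=
    cover (not_le.1 hq).le fun x hx hx' => by
      obtain ⟨b1, b2⟩ := mem_Ico.1 hx
      refine mem_filter.2 ⟨?_, b1, b2⟩
      rw [hS, mem_sdiff, mem_range]
      exact ⟨by omega, fun h => hx' (mem_filter.2 ⟨h, b2⟩)⟩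
  rw [Nat.card_Ico] at a3
  have a4 : E * m ≤ E * ((S.filter fun x => B ≤ x ∧ x < m).card + (B + K + σ)) :=
    Nat.mul_le_mul_left _ (by omega)
  have a5 : (S.filter fun x => N - m ≤ x).card * σ ≤ 2 * K * σ :=
    Nat.mul_le_mul_right _ (not_le.1 hp).le
  rw [mul_add, mul_comm E (Finset.card _)] at a4
  omega

end Pool.Agent.MP_f65396_co.h15
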