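import Pool.Agent.MP_f65396_co.h15.Spec
import Mathlib.Data.Fintype.EquivFin
import Mathlib.Algebra.Order.BigOperators.Group.Finset
import Mathlib.Tactic.Linarith
import Mathlib.Tactic.Ring

/-! Choice of the order of the vertices. -/

set_option autoImplicit false

namespace Pool.Agent.MP_f65396_co.h15

open Finset

namespace Sel

/-- Greedy choice of a sequence. -/
lemma greedy {W : Type} [DecidableEq W] (w0 : W) (Q : W → Prop) (P : ℕ → Finset W → W → Prop)
    (k : ℕ) (hP : ∀ i < k, ∀ F : Finset W, F.card ≤ i → (∀ x ∈ F, Q x) → ∃ u, Q u ∧ P i F u) :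
    ∃ f : ℕ → W, ∀ i < k, Q (f i) ∧ P i ((range i).image f) (f i) := by
  induction k with
  | zero => exact ⟨fun _ => w0, fun i hi => absurd hi (Nat.not_lt_zero i)⟩
  | succ k ih =>
    obtain ⟨f, hf⟩ := ih fun i hi => hP i (Nat.lt_succ_of_lt hi)
    obtain ⟨u, hu⟩ := hP k (Nat.lt_succ_self k) ((range k).image f)
      (card_image_le.trans (card_range k).le) fun x hx => by
        obtain ⟨j, hj, rfl⟩ := mem_image.1 hx
        exact (hf j (mem_range.1 hj)).1
    refine ⟨Function.update f k u, fun i hi => ?_⟩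
    have e : (range i).image (Function.update f k u) = (range i).image f :=
      image_congr fun j hj => Function.update_of_ne (by
        have := mem_range.1 (mem_coe.1 hj)
        omega) _ _
    rw [e]
    rcases Nat.lt_succ_iff_lt_or_eq.1 hi with h | rfl
    · rw [Function.update_of_ne h.ne]
      exact hf i h
    · rw [Function.update_self]
      exact hu

lemma inj {W : Type} [DecidableEq W] {f : ℕ → W} {k : ℕ}
    (hf : ∀ i < k, f i ∉ (range i).image f) : ∀ i < k, ∀ j < k, f i = f j → i = j := by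
  intro i hi j hj e
  rcases lt_trichotomy i j with h | h | h
  · exact absurd (mem_image.2 ⟨i, mem_range.2 h, e⟩) (hf j hj)
  · exact h
  · exact absurd (mem_image.2 ⟨j, mem_range.2 h, e.symm⟩) (hf i hi)

variable {V : Type} [DecidableEq V] {U : Finset V} {h : V → V → Prop} [DecidableRel h]

omit [DecidableEq V] in
lemma double (U Z : Finset V) :
    ∑ u ∈ U, (Z.filter fun x => h x u).card = ∑ x ∈ Z, (U.filter (h x)).card := by
  simp only [card_filter]
  exact sum_comm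

omit [DecidableEq V] in
lemma markov (U : Finset V) (f : V → ℕ) (t : ℕ) :
    (U.filter fun u => t ≤ f u).card * t ≤ ∑ u ∈ U, f u :=
  (card_nsmul_le_sum _ f t fun _ hu => (mem_filter.1 hu).2).trans
    (sum_le_sum_of_subset (filter_subset _ _))

/-- Disjoint pairs. -/
lemma pairs (w0 : V) {c D : ℕ} (hs : ∀ u v, h u v → h v u)
    (hD : ∀ u ∈ U, (U.filter (h u)).card ≤ D)
    (hS : 4 * (c - 1) * D < ∑ u ∈ U, (U.filter (h u)).card) :
    ∃ a b : ℕ → V, (∀ i < c, a i ∈ U ∧ b i ∈ U ∧ h (a i) (b i)) ∧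
      ∀ i < c, ∀ j < i, a i ≠ a j ∧ a i ≠ b j ∧ b i ≠ a j ∧ b i ≠ b j := by
  obtain ⟨f, hf⟩ := greedy (w0, w0) (fun p : V × V => p.1 ∈ U ∧ p.2 ∈ U ∧ h p.1 p.2)
    (fun _ F p => ∀ q ∈ F, p.1 ≠ q.1 ∧ p.1 ≠ q.2 ∧ p.2 ≠ q.1 ∧ p.2 ≠ q.2) c fun i hi F hF hQ => by
      obtain ⟨W, hW⟩ : ∃ W, W = F.image Prod.fst ∪ F.image Prod.snd := ⟨_, rfl⟩
      have hWc : W.card ≤ 2 * (c - 1) := by
        have h1 := card_union_le (F.image Prod.fst) (F.image Prod.snd)
        have h2 : (F.image Prod.fst).card ≤ F.card := card_image_le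
        have h3 : (F.image Prod.snd).card ≤ F.card := card_image_le
        rw [hW]
        omega
      have hWU : ∀ x ∈ W, x ∈ U := fun x hx => by
        rw [hW] at hx
        rcases mem_union.1 hx with hx | hx
        · obtain ⟨q, hq, rfl⟩ := mem_image.1 hx
          exact (hQ q hq).1
        · obtain ⟨q, hq, rfl⟩ := mem_image.1 hx
          exact (hQ q hq).2.1
      have hm : ∀ q ∈ F, q.1 ∈ W ∧ q.2 ∈ W := fun q hq => by
        rw [hW]
        exact ⟨mem_union_left _ (mem_image_of_mem _ hq), mem_union_right _ (mem_image_of_mem _ hq)⟩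
      by_contra hn
      have key : ∀ u ∈ U \ W, (U.filter (h u)).card ≤ (W.filter fun x => h x u).card := by
        intro u hu
        refine card_le_card fun x hx => mem_filter.2 ⟨?_, hs _ _ (mem_filter.1 hx).2⟩
        by_contra hxW
        refine hn ⟨(u, x), ⟨(mem_sdiff.1 hu).1, (mem_filter.1 hx).1, (mem_filter.1 hx).2⟩,
          fun q hq => ⟨?_, ?_, ?_, ?_⟩⟩
        · exact fun e => (mem_sdiff.1 hu).2 ((show u = q.1 from e) ▸ (hm q hq).1)
        · exact fun e => (mem_sdiff.1 hu).2 ((show u = q.2 from e) ▸ (hm q hq).2)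
        · exact fun e => hxW ((show x = q.1 from e) ▸ (hm q hq).1)
        · exact fun e => hxW ((show x = q.2 from e) ▸ (hm q hq).2)
      have h1 : ∑ u ∈ W, (U.filter (h u)).card ≤ W.card * D :=
        sum_le_card_nsmul _ _ _ fun u hu => hD u (hWU u hu)
      have h2 : ∑ u ∈ U \ W, (U.filter (h u)).card ≤ ∑ u ∈ W, (U.filter (h u)).card :=
        (sum_le_sum key).trans ((sum_le_sum_of_subset sdiff_subset).trans (double U W).le)
      have h3 := sum_sdiff (f := fun u => (U.filter (h u)).card) (show W ⊆ U from hWU)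
      have h4 := Nat.mul_le_mul_right D hWc
      linarith
  exact ⟨fun i => (f i).1, fun i => (f i).2, fun i hi => (hf i hi).1,
    fun i hi j hj => (hf i hi).2 _ (mem_image_of_mem f (mem_range.2 hj))⟩

omit [DecidableEq V] in
/-- Extension of a prescribed injection. -/
lemma extend {N : ℕ} (hU : U.card = N) (I : Set ℕ) (g : ℕ → V) (hm : ∀ x ∈ I, g x ∈ U)
    (hi : Set.InjOn g I) : ∃ v : ℕ → V, Set.BijOn v (range N : Finset ℕ) U ∧
      ∀ x ∈ I, x < N → v x = g x := by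
  obtain ⟨e, he⟩ := Set.MapsTo.exists_equiv_extend_of_card_eq (α := Fin N) (t := U)
    (by rw [Fintype.card_fin, hU]) (s := {i : Fin N | (i : ℕ) ∈ I}) (f := fun i => g i)
    (fun i hi => hm i hi) fun i hi' j hj e => Fin.ext (hi hi' hj e)
  refine ⟨fun x => if hx : x < N then (e ⟨x, hx⟩ : V) else g x, ⟨fun x hx => ?_,
    fun x hx y hy exy => ?_, fun u hu => ?_⟩, fun x hx hN => ?_⟩
  · simp only [dif_pos (mem_range.1 (mem_coe.1 hx))]
    exact (e _).2
  · simp only [dif_pos (mem_range.1 (mem_coe.1 hx)), dif_pos (mem_range.1 (mem_coe.1 hy))] at exy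
    exact congrArg Fin.val (e.injective (Subtype.ext exy))
  · refine ⟨e.symm ⟨u, hu⟩, mem_coe.2 (mem_range.2 (e.symm ⟨u, hu⟩).2), ?_⟩
    simp only [dif_pos (e.symm ⟨u, hu⟩).2, Fin.eta, Equiv.apply_symm_apply]
  · simp only [dif_pos hN]
    exact he ⟨x, hN⟩ hx

/-- The two sequences of vertices of low degree. -/
lemma low (w0 : V) {N c D : ℕ} (W : Finset V) (hs : ∀ u v, h u v → h v u) (hU : U.card = N)
    (hc : 2 ≤ c) (hcD : c ≤ D) (hN : 10000 * D ≤ N) (hW : W.card ≤ 2 * c)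
    (hD : ∀ u ∈ U, (U.filter (h u)).card ≤ D)
    (hS : ∑ u ∈ U, (U.filter (h u)).card ≤ 2 * c * N) :
    ∃ y t : ℕ → V, (∀ i < 3 * D, (y i ∈ U ∧ y i ∉ W) ∧ y i ∉ (range i).image y) ∧
      ∀ i < 3 * D, (t i ∈ U ∧ t i ∉ W ∧ t i ∉ (range (3 * D)).image y) ∧
        t i ∉ (range i).image t ∧ (U.filter fun x => h x (t i) ∧ (x ∈ (range (3 * D)).image y ∨
          x ∈ (range i).image t ∨ h x (y i))).card + 2 ≤ c := by
  obtain ⟨H, hH⟩ : ∃ H, H = U.filter fun u => 8 * c ≤ (U.filter (h u)).card := ⟨_, rfl⟩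
  have hHc : 4 * H.card ≤ N := by
    have h1 := (markov U (fun u => (U.filter (h u)).card) (8 * c)).trans hS
    rw [← hH] at h1
    exact Nat.le_of_mul_le_mul_left (c := 2 * c) (by linarith) (by omega)
  have hl : ∀ u ∈ U, u ∉ H → (U.filter (h u)).card ≤ 8 * c := fun u hu hn => by
    by_contra hlt
    exact hn (hH ▸ mem_filter.2 ⟨hu, by omega⟩)
  obtain ⟨y, hy⟩ := greedy w0 (fun u => u ∈ U ∧ u ∉ W ∧ u ∉ H) (fun _ F u => u ∉ F) (3 * D)
    fun i hi F hF _ => by
      have h1 := card_union_le (W ∪ H) F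
      have h2 := card_union_le W H
      obtain ⟨u, hu, hn⟩ := exists_mem_notMem_of_card_lt_card (s := W ∪ H ∪ F) (t := U) (by omega)
      simp only [mem_union, not_or] at hn
      exact ⟨u, ⟨hu, hn.1.1, hn.1.2⟩, hn.2⟩
  obtain ⟨Y, hY⟩ : ∃ Y, Y = (range (3 * D)).image y := ⟨_, rfl⟩
  have hYc : Y.card ≤ 3 * D := hY ▸ card_image_le.trans (card_range _).le
  have hYl : ∀ x ∈ Y, (U.filter (h x)).card ≤ 8 * c := fun x hx => by
    obtain ⟨j, hj, rfl⟩ := mem_image.1 (hY ▸ hx)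
    exact hl _ (hy j (mem_range.1 hj)).1.1 (hy j (mem_range.1 hj)).1.2.2
  obtain ⟨t, ht⟩ := greedy w0 (fun u => u ∈ U ∧ u ∉ W ∧ u ∉ Y ∧ u ∉ H) (fun i F u => u ∉ F ∧
      (U.filter fun x => h x u ∧ (x ∈ Y ∨ x ∈ F ∨ h x (y i))).card + 2 ≤ c) (3 * D)
    fun i hi F hF hQ => by
      obtain ⟨Z, hZ⟩ : ∃ Z, Z = (Y ∪ F) ∪ U.filter (h (y i)) := ⟨_, rfl⟩
      obtain ⟨B, hB⟩ : ∃ B, B = U.filter fun u => c - 1 ≤ (Z.filter fun x => h x u).card :=
        ⟨_, rfl⟩
      have h1 : ∑ x ∈ Y ∪ F, (U.filter (h x)).card ≤ (Y ∪ F).card * (8 * c) :=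
        sum_le_card_nsmul _ _ _ fun x hx => (mem_union.1 hx).elim (hYl x)
          fun hx => hl x (hQ x hx).1 (hQ x hx).2.2.2
      have h2 : ∑ x ∈ U.filter (h (y i)), (U.filter (h x)).card ≤ (U.filter (h (y i))).card * D :=
        sum_le_card_nsmul _ _ _ fun x hx => hD x (mem_filter.1 hx).1
      have h3 : (Y ∪ F).card ≤ 6 * D := by
        have := card_union_le Y F
        omega
      have h4 := Nat.mul_le_mul_right D (hl _ (hy i hi).1.1 (hy i hi).1.2.2)
      have h5 := Nat.mul_le_mul_right (8 * c) h3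
      have h6 := markov U (fun u => (Z.filter fun x => h x u).card) (c - 1)
      have h7 := sum_union_inter (s₁ := Y ∪ F) (s₂ := U.filter (h (y i)))
        (f := fun x => (U.filter (h x)).card)
      rw [← hB, double] at h6
      rw [← hZ] at h7
      have hBc : B.card ≤ 112 * D := by
        obtain ⟨e, rfl⟩ : ∃ e, c = e + 2 := ⟨c - 2, by omega⟩
        refine Nat.le_of_mul_le_mul_right (c := e + 1) ?_ (by omega)
        rw [show e + 2 - 1 = e + 1 from rfl] at h6
        nlinarith [Nat.zero_le (e * D), Nat.zero_le (∑ x ∈ (Y ∪ F) ∩ U.filter (h (y i)),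
          (U.filter (h x)).card)]
      have g1 := card_union_le (W ∪ H ∪ (Y ∪ F)) B
      have g2 := card_union_le (W ∪ H) (Y ∪ F)
      have g3 := card_union_le W H
      obtain ⟨u, hu, hn⟩ := exists_mem_notMem_of_card_lt_card (s := W ∪ H ∪ (Y ∪ F) ∪ B) (t := U)
        (by omega)
      simp only [mem_union, not_or] at hn
      refine ⟨u, ⟨hu, hn.1.1.1, hn.1.2.1, hn.1.1.2⟩, hn.1.2.2, ?_⟩
      have g4 : ¬ c - 1 ≤ (Z.filter fun x => h x u).card := fun hle =>
        hn.2 (hB ▸ mem_filter.2 ⟨hu, hle⟩)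
      have g5 : (U.filter fun x => h x u ∧ (x ∈ Y ∨ x ∈ F ∨ h x (y i))).card ≤
          (Z.filter fun x => h x u).card := card_le_card fun x hx => by
        obtain ⟨hxU, hxu, hx3⟩ := mem_filter.1 hx
        refine mem_filter.2 ⟨?_, hxu⟩
        rw [hZ]
        rcases hx3 with hx3 | hx3 | hx3
        · exact mem_union_left _ (mem_union_left _ hx3)
        · exact mem_union_left _ (mem_union_right _ hx3)
        · exact mem_union_right _ (mem_filter.2 ⟨hxU, hs _ _ hx3⟩)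
      omega
  subst hY
  exact ⟨y, t, fun i hi => ⟨⟨(hy i hi).1.1, (hy i hi).1.2.1⟩, (hy i hi).2⟩, fun i hi =>
    ⟨⟨(ht i hi).1.1, (ht i hi).1.2.1, (ht i hi).1.2.2.1⟩, (ht i hi).2⟩⟩

end Sel

theorem sel : SelS := by
  intro V _ U h _ N n c D m hs hir hU hN hc hcD hn hm hmN hD hS
  obtain ⟨w0, -⟩ : U.Nonempty := card_pos.1 (by omega)
  have hS' : ∑ u ∈ U, (U.filter (h u)).card = (c - 1) * (2 * n + c) := by
    obtain ⟨e, rfl⟩ : ∃ e, c = e + 1 := ⟨c - 1, by omega⟩
    rw [hN, show n + (e + 1) - 1 = n + e from rfl] at hS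
    rw [Nat.add_sub_cancel]
    linarith
  obtain ⟨a, b, hab, hd⟩ := Sel.pairs (U := U) (c := c) w0 hs hD (by
    rw [hS', mul_comm 4, mul_assoc]
    exact Nat.mul_lt_mul_of_pos_left (by omega) (by omega))
  obtain ⟨y, t, hy, ht⟩ := Sel.low (U := U) w0 ((range c).image a ∪ (range c).image b) hs hU hc hcD
    (by omega) (by
      have h1 := card_union_le ((range c).image a) ((range c).image b)
      have h2 : ((range c).image a).card ≤ c := card_image_le.trans (card_range _).le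
      have h3 : ((range c).image b).card ≤ c := card_image_le.trans (card_range _).le
      omega) hD (by
      rw [hS', hN, mul_comm 2 c, mul_assoc]
      exact Nat.mul_le_mul (by omega) (by omega))
  have A1 : ∀ i < c, ∀ j < c, (a i = a j → i = j) ∧ (b i = b j → i = j) ∧ a i ≠ b j := by
    intro i hi j hj
    rcases lt_trichotomy i j with hij | rfl | hij
    · have := hd j hj i hij
      exact ⟨fun e => absurd e.symm this.1, fun e => absurd e.symm this.2.2.2, this.2.2.1.symm⟩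
    · exact ⟨fun _ => rfl, fun _ => rfl, fun e => hir _ (e ▸ (hab i hi).2.2)⟩
    · have := hd i hi j hij
      exact ⟨fun e => absurd e this.1, fun e => absurd e this.2.2.2, this.2.1⟩
  have A2 := Sel.inj fun i hi => (hy i hi).2
  have A3 := Sel.inj fun i hi => (ht i hi).2.1
  have A4 : ∀ i < 3 * D, ∀ j < c, y i ≠ a j ∧ y i ≠ b j ∧ t i ≠ a j ∧ t i ≠ b j := by
    intro i hi j hj
    have ha := mem_union_left ((range c).image b) (mem_image_of_mem a (mem_range.2 hj))
    have hb := mem_union_right ((range c).image a) (mem_image_of_mem b (mem_range.2 hj))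
    exact ⟨fun e => (hy i hi).1.2 (e ▸ ha), fun e => (hy i hi).1.2 (e ▸ hb),
      fun e => (ht i hi).1.2.1 (e ▸ ha), fun e => (ht i hi).1.2.1 (e ▸ hb)⟩
  have A5 : ∀ i < 3 * D, ∀ j < 3 * D, t i ≠ y j := fun i hi j hj e =>
    (ht i hi).1.2.2 (e ▸ mem_image_of_mem y (mem_range.2 hj))
  obtain ⟨g, hg⟩ : ∃ g : ℕ → V, g = fun x => if x < c then a x else if x < m then
    y (x - (m - 3 * D)) else if x < N - m + c then b (x - (N - m)) else t (x - (N - 3 * D)) :=
    ⟨_, rfl⟩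
  have g1 : ∀ j < c, g j = a j := fun j hj => by rw [hg]; exact if_pos hj
  have g2 : ∀ i < 3 * D, g (m - 3 * D + i) = y i := fun i hi => by
    rw [hg]
    simp only [if_neg (show ¬ m - 3 * D + i < c by omega), if_pos (show m - 3 * D + i < m by omega),
      Nat.add_sub_cancel_left]
  have g3 : ∀ j < c, g (N - m + j) = b j := fun j hj => by
    rw [hg]
    simp only [if_neg (show ¬ N - m + j < c by omega), if_neg (show ¬ N - m + j < m by omega),
      if_pos (show N - m + j < N - m + c by omega), Nat.add_sub_cancel_left]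
  have g4 : ∀ i < 3 * D, g (N - 3 * D + i) = t i := fun i hi => by
    rw [hg]
    simp only [if_neg (show ¬ N - 3 * D + i < c by omega),
      if_neg (show ¬ N - 3 * D + i < m by omega),
      if_neg (show ¬ N - 3 * D + i < N - m + c by omega), Nat.add_sub_cancel_left]
  obtain ⟨v, hv, hvg⟩ := Sel.extend hU {x | (∃ j < c, x = j) ∨ (∃ i < 3 * D, x = m - 3 * D + i) ∨
      (∃ j < c, x = N - m + j) ∨ ∃ i < 3 * D, x = N - 3 * D + i} g (by
    rintro x (⟨j, hj, rfl⟩ | ⟨j, hj, rfl⟩ | ⟨j, hj, rfl⟩ | ⟨j, hj, rfl⟩)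
    · exact g1 _ hj ▸ (hab _ hj).1
    · exact g2 j hj ▸ (hy j hj).1.1
    · exact g3 j hj ▸ (hab j hj).2.1
    · exact g4 j hj ▸ (ht j hj).1.1) (by
    rintro x (⟨i, hi, rfl⟩ | ⟨i, hi, rfl⟩ | ⟨i, hi, rfl⟩ | ⟨i, hi, rfl⟩)
      z (⟨j, hj, rfl⟩ | ⟨j, hj, rfl⟩ | ⟨j, hj, rfl⟩ | ⟨j, hj, rfl⟩) e
    · rw [g1 _ hi, g1 _ hj] at e; exact (A1 _ hi _ hj).1 e
    · rw [g1 _ hi, g2 _ hj] at e; exact absurd e.symm (A4 _ hj _ hi).1
    · rw [g1 _ hi, g3 _ hj] at e; exact absurd e (A1 _ hi _ hj).2.2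
    · rw [g1 _ hi, g4 _ hj] at e; exact absurd e.symm (A4 _ hj _ hi).2.2.1
    · rw [g2 _ hi, g1 _ hj] at e; exact absurd e (A4 _ hi _ hj).1
    · rw [g2 _ hi, g2 _ hj] at e; rw [A2 _ hi _ hj e]
    · rw [g2 _ hi, g3 _ hj] at e; exact absurd e (A4 _ hi _ hj).2.1
    · rw [g2 _ hi, g4 _ hj] at e; exact absurd e.symm (A5 _ hj _ hi)
    · rw [g3 _ hi, g1 _ hj] at e; exact absurd e.symm (A1 _ hj _ hi).2.2
    · rw [g3 _ hi, g2 _ hj] at e; exact absurd e.symm (A4 _ hj _ hi).2.1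
    · rw [g3 _ hi, g3 _ hj] at e; rw [(A1 _ hi _ hj).2.1 e]
    · rw [g3 _ hi, g4 _ hj] at e; exact absurd e.symm (A4 _ hj _ hi).2.2.2
    · rw [g4 _ hi, g1 _ hj] at e; exact absurd e (A4 _ hi _ hj).2.2.1
    · rw [g4 _ hi, g2 _ hj] at e; exact absurd e (A5 _ hi _ hj)
    · rw [g4 _ hi, g3 _ hj] at e; exact absurd e (A4 _ hi _ hj).2.2.2
    · rw [g4 _ hi, g4 _ hj] at e; rw [A3 _ hi _ hj e])
  have v2 : ∀ i < 3 * D, v (m - 3 * D + i) = y i := fun i hi =>
    (hvg _ (Or.inr (Or.inl ⟨i, hi, rfl⟩)) (by omega)).trans (g2 i hi)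
  have v4 : ∀ i < 3 * D, v (N - 3 * D + i) = t i := fun i hi =>
    (hvg _ (Or.inr (Or.inr (Or.inr ⟨i, hi, rfl⟩))) (by omega)).trans (g4 i hi)
  refine ⟨v, hv, fun j hj => ?_, fun j hj1 hj2 => ?_⟩
  · rw [hvg _ (Or.inl ⟨j, hj, rfl⟩) (by omega),
      hvg _ (Or.inr (Or.inr (Or.inl ⟨j, hj, rfl⟩))) (by omega), g1 j hj, g3 j hj]
    exact (hab j hj).2.2
  · obtain ⟨i, rfl⟩ : ∃ i, j = m - 3 * D + i := ⟨j - (m - 3 * D), by omega⟩
    have hi : i < 3 * D := by omega
    rw [show N - m + (m - 3 * D + i) = N - 3 * D + i by omega, v2 i hi, v4 i hi]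
    refine le_trans (Nat.add_le_add_right (card_le_card_of_injOn v (fun x hx => ?_)
      (hv.injOn.mono fun x hx => ?_)) 2) (ht i hi).2.2
    · obtain ⟨hx1, hx2, hx3⟩ := mem_filter.1 (mem_coe.1 hx)
      have hx4 := mem_range.1 hx1
      refine mem_coe.2 (mem_filter.2 ⟨hv.mapsTo (mem_coe.2 (mem_range.2 (by omega))), hx2, ?_⟩)
      rcases hx3 with hx3 | hx3 | hx3
      · obtain ⟨k, rfl⟩ : ∃ k, x = m - 3 * D + k := ⟨x - (m - 3 * D), by omega⟩
        rw [v2 k (by omega)]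
        exact Or.inl (mem_image_of_mem y (mem_range.2 (by omega)))
      · obtain ⟨k, rfl⟩ : ∃ k, x = N - 3 * D + k := ⟨x - (N - 3 * D), by omega⟩
        rw [v4 k (by omega)]
        exact Or.inr (Or.inl (mem_image_of_mem t (mem_range.2 (by omega))))
      · exact Or.inr (Or.inr hx3)
    · have := mem_range.1 (mem_filter.1 (mem_coe.1 hx)).1
      exact mem_coe.2 (mem_range.2 (by omega))

end Pool.Agent.MP_f65396_co.h15
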