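import Pool.Agent.MP_f65396_co.h15.Core3
import Pool.Agent.MP_f65396_co.h15.Asm
import Pool.Agent.MP_f65396_co.h15.Ori
import Pool.Agent.MP_f65396_co.h15.Sel
import Mathlib.Combinatorics.SimpleGraph.DegreeSum

/-! The dense case of the ascending decomposition into star forests. -/

set_option autoImplicit false

namespace Pool.Agent.MP_f65396_co.h15

open Finset

theorem transfer {V : Type} [Fintype V] [DecidableEq V] (G : SimpleGraph V) (n c : ℕ)
    (hE : G.edgeSet.ncard = n * (n + 1) / 2) (v : ℕ → V)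
    (hv : ∀ p < n + c, ∀ q < n + c, v p = v q → p = q) (h : ℕ → ℕ → Prop)
    (hg : ∀ p < n + c, ∀ q < n + c, q ≠ p → ¬ h p q → G.Adj (v p) (v q))
    (O : Out (n + c) c h) : Dec G n := by
  obtain ⟨z, A, L, o1, o2, o3, o4, o5, o6, o7, o8⟩ := O
  have cA : ∀ p < n + c, ((A p).image v).card = (A p).card := fun p hp =>
    card_image_of_injOn fun a ha b hb e => hv a (o2 p hp a ha).1 b (o2 p hp b hb).1 e
  have cL : ∀ p < n + c, ((L p).image v).card = (L p).card := fun p hp =>
    card_image_of_injOn fun a ha b hb e => hv a (o3 p hp a ha).1 b (o3 p hp b hb).1 e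
  refine asm V G n (fun t => v (t + c)) (fun t => v (z (t + c)))
    (fun t => (A (t + c)).image v) (fun t => (L (t + c)).image v) hE
    (fun t ht u hu => ?_) (fun t ht u hu => ?_) (fun t ht => ?_) (fun t ht => ?_)
    (fun s hs t ht u hu w hw e => ?_) (fun s hs t ht u hu w hw e => ?_)
    (fun s hs t ht u hu w hw e => ?_)
  · obtain ⟨y, y1, rfl⟩ := mem_image.1 hu
    have hp : t + c < n + c := by omega
    obtain ⟨b1, b2, b3⟩ := o2 _ hp y y1
    exact hg _ hp y b1 b2 b3
  · obtain ⟨y, y1, rfl⟩ := mem_image.1 hu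
    have hp : t + c < n + c := by omega
    obtain ⟨b1, b2, b3, b4, b5, b6, b7⟩ := o3 _ hp y y1
    refine ⟨hg _ (o1 _ hp) y b1 b2 b3, fun e => b4 (hv _ (o1 _ hp) _ hp e), fun e => ?_,
      fun e => b6 (hv _ b1 _ hp e), fun e => ?_⟩
    · obtain ⟨w, w1, w2⟩ := mem_image.1 e
      exact b5 (hv _ (o2 _ hp w w1).1 _ (o1 _ hp) w2 ▸ w1)
    · obtain ⟨w, w1, w2⟩ := mem_image.1 e
      exact b7 (hv _ (o2 _ hp w w1).1 _ b1 w2 ▸ w1)
  · have hp : t + c < n + c := by omega
    have := o4 _ hp (by omega)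
    rw [cA _ hp, cL _ hp]
    omega
  · have hp : t + c < n + c := by omega
    have hq : t + 1 + c < n + c := by omega
    rw [cA _ hp, cL _ hp, cA _ hq, cL _ hq, show t + 1 + c = t + c + 1 by omega]
    exact o5 _ (by omega)
  · obtain ⟨y, y1, rfl⟩ := mem_image.1 hu
    obtain ⟨y', y2, rfl⟩ := mem_image.1 hw
    have hp : s + c < n + c := by omega
    have hq : t + c < n + c := by omega
    rcases Sym2.eq_iff.1 e with ⟨e1, -⟩ | ⟨e1, e2⟩
    · have := hv _ hp _ hq e1
      omega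
    · have a1 := hv _ hp _ (o2 _ hq _ y2).1 e1
      have a2 := hv _ (o2 _ hp _ y1).1 _ hq e2
      exact absurd (a1 ▸ y2) (o6 _ hp _ hq (a2 ▸ y1))
  · obtain ⟨y, y1, rfl⟩ := mem_image.1 hu
    obtain ⟨y', y2, rfl⟩ := mem_image.1 hw
    have hp : s + c < n + c := by omega
    have hq : t + c < n + c := by omega
    obtain ⟨b1, b2⟩ := o7 _ hp _ hq y y1 y' y2
    rcases Sym2.eq_iff.1 e with ⟨e1, e2⟩ | ⟨e1, e2⟩
    · exact b1 ⟨hv _ hp _ (o1 _ hq) e1, hv _ (o2 _ hp _ y1).1 _ (o3 _ hq _ y2).1 e2⟩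
    · exact b2 ⟨hv _ hp _ (o3 _ hq _ y2).1 e1, hv _ (o2 _ hp _ y1).1 _ (o1 _ hq) e2⟩
  · obtain ⟨y, y1, rfl⟩ := mem_image.1 hu
    obtain ⟨y', y2, rfl⟩ := mem_image.1 hw
    have hp : s + c < n + c := by omega
    have hq : t + c < n + c := by omega
    obtain ⟨b1, b2⟩ := o8 _ hp _ hq y y1 y' y2
    rcases Sym2.eq_iff.1 e with ⟨e1, -⟩ | ⟨e1, e2⟩
    · have := b1 (hv _ (o1 _ hp) _ (o1 _ hq) e1)
      omega
    · exact absurd ⟨hv _ (o1 _ hp) _ (o3 _ hq _ y2).1 e1,
        hv _ (o3 _ hp _ y1).1 _ (o1 _ hq) e2⟩ b2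

lemma filter_reindex {V : Type} [DecidableEq V] {U : Finset V} {N : ℕ} {v : ℕ → V}
    (hv : Set.BijOn v (range N : Finset ℕ) U) (p : V → Prop) [DecidablePred p] :
    ((range N).filter (fun x => p (v x))).card = (U.filter p).card := by
  refine card_bij (fun x _ => v x) (fun x hx => ?_) (fun x hx y hy e => ?_) (fun u hu => ?_)
  · exact mem_filter.2 ⟨hv.mapsTo (mem_filter.1 hx).1, (mem_filter.1 hx).2⟩
  · exact hv.injOn (mem_filter.1 hx).1 (mem_filter.1 hy).1 e
  · obtain ⟨x, x1, rfl⟩ := hv.surjOn (mem_filter.1 hu).1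
    exact ⟨x, mem_filter.2 ⟨x1, (mem_filter.1 hu).2⟩, rfl⟩

theorem main (V : Type) [Fintype V] (G : SimpleGraph V) (n : ℕ)
    (hE : G.edgeSet.ncard = n * (n + 1) / 2)
    (hD : ∀ v ∈ G.support, 10 ^ 4 * {w ∈ G.support | w ≠ v ∧ ¬ G.Adj v w}.ncard ≤ n) :
    Dec G n := by
  classical
  obtain ⟨U, mU⟩ : ∃ U : Finset V, ∀ u, u ∈ U ↔ u ∈ G.support :=
    ⟨univ.filter (· ∈ G.support), by simp⟩
  obtain ⟨N, hN⟩ : ∃ N, U.card = N := ⟨_, rfl⟩
  obtain ⟨D, hD'⟩ : ∃ D, D = n / 10000 := ⟨_, rfl⟩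
  let h : V → V → Prop := fun u w => w ≠ u ∧ ¬ G.Adj u w
  have hs : ∀ u w, h u w → h w u := fun u w t => ⟨t.1.symm, fun k => t.2 k.symm⟩
  have hi : ∀ u, ¬ h u u := fun u t => t.1 rfl
  have d1 : ∀ u ∈ U, (U.filter (h u)).card ≤ D := by
    intro u hu
    have a := hD u ((mU u).1 hu)
    have e : {w ∈ G.support | w ≠ u ∧ ¬ G.Adj u w} = (U.filter (h u) : Finset V) := by
      ext w
      simp only [Set.mem_ofPred_eq, coe_filter, mU, h]
    rw [e, Set.ncard_coe_finset] at a
    omega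
  have d2 : ∑ u ∈ U, (U.filter (h u)).card + n * (n + 1) = N * (N - 1) := by
    have a1 : ∑ u ∈ U, G.degree u = n * (n + 1) := by
      rw [sum_subset (subset_univ U) fun u _ hu => ?_, G.sum_degrees_eq_twice_card_edges,
        ← Set.ncard_coe_finset, SimpleGraph.coe_edgeFinset, hE]
      · exact Nat.two_mul_div_two_of_even (Nat.even_mul_succ_self n)
      · by_contra k
        obtain ⟨w, hw⟩ := (G.degree_pos_iff_exists_adj u).1 (Nat.pos_of_ne_zero k)
        exact hu ((mU u).2 ⟨w, hw⟩)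
    rw [← a1, ← sum_add_distrib, ← hN, ← smul_eq_mul, ← sum_const]
    refine sum_congr rfl fun u hu => ?_
    rw [← card_erase_of_mem hu, ← SimpleGraph.card_neighborFinset_eq_degree,
      ← card_union_of_disjoint]
    · congr 1
      ext w
      simp only [mem_union, mem_filter, SimpleGraph.mem_neighborFinset, mem_erase, h]
      constructor
      · rintro (t | t)
        · exact ⟨t.2.1, t.1⟩
        · exact ⟨t.ne.symm, (mU w).2 ⟨u, t.symm⟩⟩
      · intro t
        by_cases k : G.Adj u w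
        · exact Or.inr k
        · exact Or.inl ⟨t.2, t.1, k⟩
    · exact disjoint_left.2 fun w t k =>
        (mem_filter.1 t).2.2 ((G.mem_neighborFinset u w).1 k)
  rcases Nat.eq_zero_or_pos n with n0 | n0
  · subst n0
    have e : G = ⊥ := by
      rw [← SimpleGraph.edgeSet_eq_empty, ← Set.ncard_eq_zero (Set.toFinite _)]
      exact hE
    exact ⟨Fin.elim0, by simp [e], fun i => i.elim0, fun i => i.elim0, fun i => i.elim0,
      fun i => i.elim0, fun i => i.elim0⟩
  obtain ⟨c, rfl⟩ : ∃ c, N = n + 1 + c := by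
    refine Nat.exists_eq_add_of_le ?_
    by_contra k
    have a : N * (N - 1) ≤ n * n := Nat.mul_le_mul (by omega) (by omega)
    have b : n * (n + 1) = n * n + n := by ring
    omega
  have d3 : ∑ u ∈ U, (U.filter (h u)).card = c * (2 * n + c + 1) := by
    have a : (n + 1 + c) * (n + c) = c * (2 * n + c + 1) + n * (n + 1) := by ring
    rw [show n + 1 + c - 1 = n + c by omega] at d2
    omega
  rcases Nat.eq_zero_or_pos c with c0 | c0
  · subst c0
    rw [zero_mul] at d3
    obtain ⟨u0, -⟩ : U.Nonempty := card_pos.1 (by omega)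
    let e := U.equivFinOfCardEq hN
    let v : ℕ → V := fun p => if k : p < n + 1 + 0 then (e.symm ⟨p, k⟩ : V) else u0
    have v1 : ∀ p < n + 1, ∀ q < n + 1, v p = v q → p = q := by
      intro p hp q hq k
      simp only [v, dif_pos hp, dif_pos hq] at k
      exact Fin.mk.inj (e.symm.injective (Subtype.ext k))
    have v2 : ∀ p < n + 1, v p ∈ U := by
      intro p hp
      simp only [v, dif_pos hp]
      exact (e.symm _).2
    refine transfer G n 1 hE v v1 (fun _ _ => False) (fun p hp q hq k _ => ?_)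
      (core_one _ (by omega) _ fun _ _ _ _ => not_false)
    by_contra t
    have a := sum_eq_zero_iff.1 d3 _ (v2 p hp)
    exact (card_pos.2 ⟨v q, mem_filter.2 ⟨v2 q hq, fun s => k (v1 q hq p hp s), t⟩⟩).ne' a
  have cD : c + 1 ≤ D := by
    have a := sum_le_card_nsmul U _ D d1
    rw [d3, hN, smul_eq_mul] at a
    by_contra k
    have b : (n + 1 + c) * D ≤ (n + 1 + c) * c := Nat.mul_le_mul_left _ (by omega)
    have b2 : c * (2 * n + c + 1) = (n + 1 + c) * c + n * c := by ring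
    have b3 : 0 < n * c := Nat.mul_pos n0 c0
    omega
  obtain ⟨B, hB⟩ : ∃ B, B = n / 500 := ⟨_, rfl⟩
  obtain ⟨v, v1, v2, v3⟩ := sel V U h (n + 1 + c) n (c + 1) D (150 * B) hs hi hN (by omega)
    (by omega) cD (by omega) (by omega) (by omega) d1 d2
  have H : H0 (n + 1 + c) n (c + 1) D B (150 * B) (fun p q => h (v p) (v q)) :=
    ⟨fun _ _ => hs _ _, fun _ => hi _, by omega, by omega, cD, by omega, rfl, by omega, by omega,
      fun x hx => by
        rw [filter_reindex v1 (h (v x))]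
        exact d1 _ (v1.mapsTo (mem_coe.2 (mem_range.2 hx))),
      by
        rw [← d2]
        congr 1
        refine sum_bij (fun x _ => v x) (fun x hx => v1.mapsTo hx)
          (fun x hx y hy e => v1.injOn hx hy e) (fun u hu => ?_)
          (fun x _ => filter_reindex v1 (h (v x)))
        obtain ⟨x, x1, x2⟩ := v1.surjOn hu
        exact ⟨x, x1, x2⟩,
      v2, v3⟩
  have O := core orient H
  rw [show n + 1 + c = n + (c + 1) by omega] at O v1
  have vi : ∀ p < n + (c + 1), ∀ q < n + (c + 1), v p = v q → p = q := fun p hp q hq e =>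
    v1.injOn (mem_coe.2 (mem_range.2 hp)) (mem_coe.2 (mem_range.2 hq)) e
  refine transfer G n (c + 1) hE v vi _ (fun p hp q hq k t => ?_) O
  by_contra s
  exact t ⟨fun e => k (vi q hq p hp e), s⟩

end Pool.Agent.MP_f65396_co.h15
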